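import Pool.Agent.T2H10.SC.Defs

/-!
The atoms of the cradle (geometry).
-/

set_option autoImplicit false
set_option linter.unusedSectionVars false
set_option maxHeartbeats 1000000

open MeasureTheory Set Filter Topology
open scoped InnerProductSpace ENNReal ContDiff NNReal

namespace Pool.Agent.T2H10.SC

open H772R2.NS
open Pool.Agent.T2H10
open Pool.Agent.T2H10.Geom

/-! ### The unit cradle, explicitly -/

theorem crad_F : Crad (Metric.ball (0 : E3) 156) F k00 (ih1 (UU .p) (UU .p))
    (al * al * ih1 (UU .a) (UU .a) + 16 * (be * be) * ih1 (UU .b) (UU .b)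
      + ga * ga * ih1 (UU .c) (UU .c)) (ih1 (F .Z) (F .Z)) ww := by
  refine ⟨k00_pos, ih1_UU_pos.1, ?_,
    ih1_self_nonneg _, ww_bounds.1, ww_bounds.2, isTest_F, ?_, ?_, ?_⟩
  · have h1 := ih1_self_nonneg (UU .a)
    have h2 := ih1_self_nonneg (UU .b)
    have h3 := ih1_UU_pos.2
    have h4 := ga_pos
    have h5 : 0 ≤ al * al := mul_self_nonneg _
    have h6 : 0 ≤ be * be := mul_self_nonneg _
    positivity
  · intro i j
    rw [il2_F, sum_L]
    rcases i with m | m | _ <;> rcases j with m' | m' | _ <;>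
      simp only [cf, Pi.zero_apply, zero_mul, mul_zero, tsum_zero, add_zero, zero_add, D_sg, nrm,
        Md.P.injEq, Md.S.injEq, reduceCtorEq, if_false, if_true]
    · norm_num
    · by_cases h : m = m'
      · simp only [h, if_true]
        have := abg
        linarith
      · simp [h]
    · rw [ww]; norm_num
  · intro i j
    by_cases hij : i = j
    · subst hij
      rw [if_pos rfl]
      rcases i with m | m | _
      · rw [ih1_F, sum_L]
        simp only [cf, Pi.zero_apply, zero_mul, mul_zero, tsum_zero, add_zero, zero_add, D16_sg,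
          grd, if_true]
        ring
      · rw [ih1_F, sum_L]
        simp only [cf, Pi.zero_apply, zero_mul, mul_zero, tsum_zero, add_zero, zero_add, D16_sg,
          grd, if_true]
        ring
      · rfl
    · rw [if_neg hij, ih1_F, sum_L]
      rcases i with m | m | _ <;> rcases j with m' | m' | _ <;>
        simp only [cf, Pi.zero_apply, zero_mul, mul_zero, tsum_zero, add_zero, zero_add, D16_sg]
      · rw [if_neg (fun h => hij (by rw [h]))]; ring
      · have h : m ≠ m' := fun h => hij (by rw [h])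
        simp [h]
      · exact absurd rfl hij
  · intro i j k
    rw [itri_F]
    rcases i with m | m | _ <;> rcases j with m' | m' | _ <;> rcases k with m'' | m'' | _ <;>
      simp only [cf, T_z1, T_z2, T_z3, mul_zero, add_zero, zero_add, sub_zero, zero_sub, tab]
    · rw [T_sg1, T_sg1]
      simp only [sg]
      by_cases h : m'' = m'
      · subst h
        rw [if_pos rfl]
        by_cases h1 : m = m''
        · subst h1
          have h2 : m ≠ m + 1 := by omega
          simp only [if_true, if_neg h2]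
          have := kal
          linear_combination (32 ^ m) * this
        · by_cases h2 : m = m'' + 1
          · subst h2
            simp only [if_neg h1, if_true]
            have := kbe
            linear_combination (-(32 : ℝ) ^ m'') * this
          · simp [h1, h2]
      · rw [if_neg h]
        by_cases h1 : m = m'
        · have h2 : m ≠ m'' := fun h3 => h (by omega)
          have h3 : m ≠ m' + 1 := by omega
          simp [h2, h3]
        · by_cases h2 : m = m' + 1
          · have h3 : m ≠ m'' + 1 := by omega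
            simp [h1, h3]
          · simp [h1, h2]
    · rw [T_sg3, T_sg3]
      simp only [sg]
      by_cases h : m = m'
      · subst h
        rw [if_pos rfl]
        by_cases h1 : m'' = m
        · subst h1
          have h2 : m'' ≠ m'' + 1 := by omega
          simp only [if_true, if_neg h2]
          have := kal
          linear_combination (-(32 : ℝ) ^ m'') * this
        · by_cases h2 : m'' = m + 1
          · subst h2
            simp only [if_neg h1, if_true]
            have := kbe
            linear_combination ((32 : ℝ) ^ m) * this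
          · simp [h1, h2]
      · rw [if_neg h]
        by_cases h1 : m'' = m
        · have h2 : m'' ≠ m' := fun h3 => h (by omega)
          have h3 : m'' ≠ m + 1 := by omega
          simp [h2, h3]
        · by_cases h2 : m'' = m + 1
          · have h3 : m'' ≠ m' + 1 := by omega
            simp [h1, h3]
          · simp [h1, h2]
    · rw [T_sg1, ← rr_key m]
      ring
    · rw [T_sg3, ← rr_key m'']
      ring

/-! ### The atoms in the unit scale -/

/-- coefficients of the atoms -/
noncomputable def cfA : At → L → ℕ → ℝ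
  | .P m, .p => sg m 1
  | .S m, .a => sg m al
  | .S m, .b => sg (m + 1) be
  | .S m, .c => sg m ga
  | .Y m, .y => sg m 1
  | .O, .z => sg 0 1
  | _, _ => 0

theorem RD_cfA (i : At) (l : L) : RD (cfA i l) := by
  have h0 : RD (0 : ℕ → ℝ) := RD.zero
  rcases i with m | m | m | _ <;> rcases l <;> first
    | exact RD_sg _ _
    | exact h0

/-- the atoms in the unit scale -/
noncomputable def FA (i : At) : E3 → E3 := ∑ l, G (cfA i l) (UU l)

theorem isTest_FA (i : At) : IsTest (Metric.ball (0 : E3) 156) (FA i) :=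
  isT_sum _ (fun l _ => isTest_G (RD_cfA i l) (uf_UU l))

theorem isT_GA (i : At) (l : L) : IsT (G (cfA i l) (UU l)) :=
  isT_of (isTest_G (RD_cfA i l) (uf_UU l))

theorem isT_FA (i : At) : IsT (FA i) := isT_of (isTest_FA i)

theorem F_P (n : ℕ) : F (.P n) = FA (.P n) := by
  unfold F FA
  refine Finset.sum_congr rfl (fun l _ => ?_)
  rcases l <;> rfl

theorem F_S (n : ℕ) : F (.S n) = FA (.S n) := by
  unfold F FA
  refine Finset.sum_congr rfl (fun l _ => ?_)
  rcases l <;> rfl

theorem il2_FA (i j : At) : il2 (FA i) (FA j) = ∑ l, ∑' n, cfA i l n * cfA j l n := by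
  calc il2 (FA i) (FA j) = ∑ l, il2 (G (cfA i l) (UU l)) (FA j) :=
        il2_sum_left _ (fun l _ => isT_GA i l) (isT_FA j)
    _ = ∑ l, ∑ l', il2 (G (cfA i l) (UU l)) (G (cfA j l') (UU l')) :=
        Finset.sum_congr rfl (fun l _ => il2_sum_right _ (fun l' _ => isT_GA j l') (isT_GA i l))
    _ = ∑ l, ∑' n, cfA i l n * cfA j l n := by
        refine Finset.sum_congr rfl (fun l _ => ?_)
        rw [Finset.sum_eq_single l]
        · rw [il2_G (RD_cfA i l) (RD_cfA j l) (uf_UU l) (uf_UU l), il2_UU, if_pos rfl, mul_one]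
        · intro l' _ h
          rw [il2_G (RD_cfA i l) (RD_cfA j l') (uf_UU l) (uf_UU l'), il2_UU, if_neg h.symm,
            mul_zero]
        · intro h; exact absurd (Finset.mem_univ l) h

theorem ih1_FA (i j : At) : ih1 (FA i) (FA j)
    = ∑ l, (∑' n, cfA i l n * cfA j l n * 16 ^ n) * ih1 (UU l) (UU l) := by
  calc ih1 (FA i) (FA j) = ∑ l, ih1 (G (cfA i l) (UU l)) (FA j) :=
        ih1_sum_left _ (fun l _ => isT_GA i l) (isT_FA j)
    _ = ∑ l, ∑ l', ih1 (G (cfA i l) (UU l)) (G (cfA j l') (UU l')) :=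
        Finset.sum_congr rfl (fun l _ => ih1_sum_right _ (fun l' _ => isT_GA j l') (isT_GA i l))
    _ = _ := by
        refine Finset.sum_congr rfl (fun l _ => ?_)
        rw [Finset.sum_eq_single l]
        · rw [ih1_G (RD_cfA i l) (RD_cfA j l) (uf_UU l) (uf_UU l)]
        · intro l' _ h
          rw [ih1_G (RD_cfA i l) (RD_cfA j l') (uf_UU l) (uf_UU l'), ih1_UU _ _ h.symm, mul_zero]
        · intro h; exact absurd (Finset.mem_univ l) h

theorem itri_FA (i j k : At) : itri (FA i) (FA j) (FA k)
    = -kka * T (cfA i .a) (cfA j .a) (cfA k .p) + kka * T (cfA i .p) (cfA j .a) (cfA k .a)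
      + kkb * T (cfA i .b) (cfA j .b) (cfA k .p) - kkb * T (cfA i .p) (cfA j .b) (cfA k .b)
      + kky * T (cfA i .y) (cfA j .y) (cfA k .c) - kky * T (cfA i .c) (cfA j .y) (cfA k .y) := by
  calc itri (FA i) (FA j) (FA k) = ∑ l1, itri (G (cfA i l1) (UU l1)) (FA j) (FA k) :=
        itri_sum1 _ (fun l _ => isT_GA i l) (isT_FA j) (isT_FA k)
    _ = ∑ l1, ∑ l2, itri (G (cfA i l1) (UU l1)) (G (cfA j l2) (UU l2)) (FA k) :=
        Finset.sum_congr rfl (fun l1 _ => itri_sum2 _ (fun l _ => isT_GA j l) (isT_GA i l1)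
          (isT_FA k))
    _ = ∑ l1, ∑ l2, ∑ l3, itri (G (cfA i l1) (UU l1)) (G (cfA j l2) (UU l2))
          (G (cfA k l3) (UU l3)) :=
        Finset.sum_congr rfl (fun l1 _ => Finset.sum_congr rfl (fun l2 _ =>
          itri_sum3 _ (fun l _ => isT_GA k l) (isT_GA i l1) (isT_GA j l2)))
    _ = ∑ l1, ∑ l2, ∑ l3, T (cfA i l1) (cfA j l2) (cfA k l3) * ut kka kkb kky l1 l2 l3 := by
        refine Finset.sum_congr rfl (fun l1 _ => Finset.sum_congr rfl (fun l2 _ =>
          Finset.sum_congr rfl (fun l3 _ => ?_)))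
        rw [itri_G (RD_cfA i l1) (RD_cfA j l2) (RD_cfA k l3) (uf_UU l1) (uf_UU l2) (uf_UU l3),
          itri_UU]
        rfl
    _ = _ := by
        simp only [sum_L, ut, mul_zero, add_zero, zero_add]
        ring

theorem gram_FA (i j : At) : il2 (FA i) (FA j) = if i = j then 1 else 0 := by
  rw [il2_FA, sum_L]
  rcases i with m | m | m | _ <;> rcases j with m' | m' | m' | _ <;>
    simp only [cfA, Pi.zero_apply, zero_mul, mul_zero, tsum_zero, add_zero, zero_add, D_sg,
      At.P.injEq, At.S.injEq, At.Y.injEq, reduceCtorEq, if_false, if_true]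
  · norm_num
  · by_cases h : m = m'
    · simp only [h, if_true]
      have := abg
      linarith
    · simp [h]
  · norm_num
  · norm_num

/-- the constants of the gradients -/
noncomputable def nS : ℝ := al * al * ih1 (UU .a) (UU .a) + 16 * (be * be) * ih1 (UU .b) (UU .b)
      + ga * ga * ih1 (UU .c) (UU .c)

theorem gramh_FA (i j : At) : ih1 (FA i) (FA j) =
    if i = j then gA (ih1 (UU .p) (UU .p)) nS (ih1 (UU .y) (UU .y)) (ih1 (UU .z) (UU .z)) i
    else 0 := by
  by_cases hij : i = j
  · subst hij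
    rw [if_pos rfl, ih1_FA, sum_L]
    rcases i with m | m | m | _ <;>
      simp only [cfA, Pi.zero_apply, zero_mul, mul_zero, tsum_zero, add_zero, zero_add, D16_sg,
        gA, if_true, nS] <;> ring
  · rw [if_neg hij, ih1_FA, sum_L]
    rcases i with m | m | m | _ <;> rcases j with m' | m' | m' | _ <;>
      simp only [cfA, Pi.zero_apply, zero_mul, mul_zero, tsum_zero, add_zero, zero_add, D16_sg]
    · rw [if_neg (fun h => hij (by rw [h]))]; ring
    · have h : m ≠ m' := fun h => hij (by rw [h])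
      simp [h]
    · rw [if_neg (fun h => hij (by rw [h]))]; ring
    · exact absurd rfl hij

/-- the coefficients of the interaction of `Y n` and `S n` -/
noncomputable def th (n : ℕ) : ℝ := kky * ga * 32 ^ n

theorem tri_FA (i j k : At) : itri (FA i) (FA j) (FA k) = tabA k00 th i j k := by
  rw [itri_FA]
  rcases i with m | m | m | _ <;> rcases j with m' | m' | m' | _ <;>
    rcases k with m'' | m'' | m'' | _ <;>
    simp only [cfA, T_z1, T_z2, T_z3, mul_zero, add_zero, zero_add, sub_zero, zero_sub, tabA]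
  · rw [T_sg1, T_sg1]
    simp only [sg]
    by_cases h : m'' = m'
    · subst h
      rw [if_pos rfl]
      by_cases h1 : m = m''
      · subst h1
        have h2 : m ≠ m + 1 := by omega
        simp only [if_true, if_neg h2]
        have := kal
        linear_combination (32 ^ m) * this
      · by_cases h2 : m = m'' + 1
        · subst h2
          simp only [if_neg h1, if_true]
          have := kbe
          linear_combination (-(32 : ℝ) ^ m'') * this
        · simp [h1, h2]
    · rw [if_neg h]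
      by_cases h1 : m = m'
      · have h2 : m ≠ m'' := fun h3 => h (by omega)
        have h3 : m ≠ m' + 1 := by omega
        simp [h2, h3]
      · by_cases h2 : m = m' + 1
        · have h3 : m ≠ m'' + 1 := by omega
          simp [h1, h3]
        · simp [h1, h2]
  · rw [T_sg3, T_sg3]
    simp only [sg]
    by_cases h : m = m'
    · subst h
      rw [if_pos rfl]
      by_cases h1 : m'' = m
      · subst h1
        have h2 : m'' ≠ m'' + 1 := by omega
        simp only [if_true, if_neg h2]
        have := kal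
        linear_combination (-(32 : ℝ) ^ m'') * this
      · by_cases h2 : m'' = m + 1
        · subst h2
          simp only [if_neg h1, if_true]
          have := kbe
          linear_combination ((32 : ℝ) ^ m) * this
        · simp [h1, h2]
    · rw [if_neg h]
      by_cases h1 : m'' = m
      · have h2 : m'' ≠ m' := fun h3 => h (by omega)
        have h3 : m'' ≠ m + 1 := by omega
        simp [h2, h3]
      · by_cases h2 : m'' = m + 1
        · have h3 : m'' ≠ m' + 1 := by omega
          simp [h1, h3]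
        · simp [h1, h2]
  · rw [T_sg1]
    simp only [sg, th]
    by_cases h : m'' = m'
    · subst h
      rw [if_pos rfl]
      by_cases h1 : m = m''
      · subst h1
        simp
        ring
      · simp [h1]
    · rw [if_neg h]
      by_cases h1 : m = m'
      · have h2 : ¬ m = m'' := fun h3 => h (by omega)
        simp [h2]
      · simp [h1]
  · rw [T_sg3]
    simp only [sg, th]
    by_cases h : m = m'
    · subst h
      rw [if_pos rfl]
      by_cases h1 : m'' = m
      · subst h1
        simp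
        ring
      · simp [h1]
    · rw [if_neg h]
      by_cases h1 : m'' = m'
      · have h2 : ¬ m'' = m := fun h3 => h (by omega)
        simp [h2]
      · simp [h1]

/-! ### Supports -/

/-- the unit pieces of the atoms -/
def Occ : At → L → ℕ → Prop
  | .P m, l, n => l = .p ∧ n = m
  | .S m, l, n => (l = .a ∧ n = m) ∨ (l = .b ∧ n = m + 1) ∨ (l = .c ∧ n = m)
  | .Y m, l, n => l = .y ∧ n = m
  | .O, l, n => l = .z ∧ n = 0

theorem Occ.lev {i : At} {l : L} {n : ℕ} (h : Occ i l n) : lev i ≤ n := by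
  rcases i with m | m | m | _
  · exact h.2.ge
  · rcases h with h | h | h
    · exact h.2.ge
    · have := h.2
      simp only [SC.lev]
      omega
    · exact h.2.ge
  · exact h.2.ge
  · exact Nat.zero_le _

theorem finOcc (i : At) : {q : L × ℕ | Occ i q.1 q.2}.Finite := by
  refine Set.Finite.subset (s := (Set.univ : Set L) ×ˢ Set.Iic (SC.lev i + 1))
    (Set.finite_univ.prod (Set.finite_Iic _)) ?_
  rintro ⟨l, n⟩ h
  refine ⟨Set.mem_univ _, ?_⟩
  rcases i with m | m | m | _
  · have := h.2
    simp only [SC.lev, Set.mem_Iic]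
    omega
  · simp only [SC.lev, Set.mem_Iic]
    rcases h with h | h | h
    · have := h.2
      omega
    · have := h.2
      omega
    · have := h.2
      omega
  · have := h.2
    simp only [SC.lev, Set.mem_Iic]
    omega
  · have := h.2
    simp only [SC.lev, Set.mem_Iic]
    omega

theorem cfA_occ {i : At} {l : L} {n : ℕ} (h : cfA i l n ≠ 0) : Occ i l n := by
  by_contra hc
  apply h
  rcases i with m | m | m | _ <;> rcases l <;> simp only [Occ, reduceCtorEq, false_and, true_and,
    false_or, or_false] at hc <;> simp [cfA, sg, hc]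

/-- the set of the piece `l` at level `n` -/
def pcs (l : L) (n : ℕ) : Set E3 := {x | (4 : ℝ) ^ n • x ∈ tsupport (UU l)}

theorem isClosed_pcs (l : L) (n : ℕ) : IsClosed (pcs l n) :=
  (isClosed_tsupport (UU l)).preimage (continuous_const_smul ((4 : ℝ) ^ n))

theorem supp_FA {i : At} {x : E3} (hx : x ∈ tsupport (FA i)) : ∃ l n, Occ i l n ∧ x ∈ pcs l n := by
  have hcl : IsClosed (⋃ q ∈ {q : L × ℕ | Occ i q.1 q.2}, pcs q.1 q.2) :=
    (finOcc i).isClosed_biUnion (fun q _ => isClosed_pcs q.1 q.2)
  have hsub : tsupport (FA i) ⊆ ⋃ q ∈ {q : L × ℕ | Occ i q.1 q.2}, pcs q.1 q.2 := by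
    refine closure_minimal ?_ hcl
    intro y hy
    obtain ⟨n, hn⟩ := loc y
    have h1 : FA i y = ∑ l, (cfA i l n * 8 ^ n) • UU l ((4 : ℝ) ^ n • y) := by
      unfold FA
      rw [Finset.sum_apply]
      exact Finset.sum_congr rfl (fun l _ => G_eq hn (uf_UU l))
    have h2 : ∃ l, (cfA i l n * 8 ^ n) • UU l ((4 : ℝ) ^ n • y) ≠ 0 := by
      by_contra hc
      push Not at hc
      apply hy
      rw [h1]
      exact Finset.sum_eq_zero (fun l _ => hc l)
    obtain ⟨l, hl⟩ := h2
    simp only [Set.mem_iUnion]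
    refine ⟨(l, n), cfA_occ (fun h0 => hl (by rw [h0]; simp)), ?_⟩
    by_contra hc
    exact hl (by rw [zero_off hc, smul_zero])
  have := hsub hx
  simp only [Set.mem_iUnion] at this
  obtain ⟨q, hq, hq2⟩ := this
  exact ⟨q.1, q.2, hq, hq2⟩

theorem pcs_ball {l : L} {n : ℕ} {x : E3} (h : x ∈ pcs l n) : ‖x‖ ≤ 155 / 4 ^ n := by
  obtain ⟨h1, h2, h3⟩ := supp_UU l h
  have h4 : ‖(4 : ℝ) ^ n • x‖ ≤ 155 := by
    refine (norm_le_abs _).trans ?_
    have k1 : |((4 : ℝ) ^ n • x) 0| ≤ 145 := by
      rw [abs_le]; constructor <;> linarith [h1.1, h1.2]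
    have k2 : |((4 : ℝ) ^ n • x) 1| ≤ 5 := abs_le.mpr h2
    have k3 : |((4 : ℝ) ^ n • x) 2| ≤ 5 := abs_le.mpr h3
    linarith
  rw [norm_smul, norm_pow, Real.norm_of_nonneg (by norm_num : (0 : ℝ) ≤ 4)] at h4
  rw [le_div_iff₀ (by positivity)]
  linarith

theorem supp_ball (i : At) : tsupport (FA i) ⊆ Metric.closedBall 0 (155 / 4 ^ lev i) := by
  intro x hx
  obtain ⟨l, n, h1, h2⟩ := supp_FA hx
  rw [mem_closedBall_zero_iff]
  refine (pcs_ball h2).trans ?_
  have := h1.lev
  gcongr
  norm_num

theorem pcs_meet {l l' : L} {n n' : ℕ} {x : E3} (h : x ∈ pcs l n) (h' : x ∈ pcs l' n') :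
    n = n' ∧ dj l l' = false := by
  have h1 := (supp_UU l h).1
  have h2 := (supp_UU l' h').1
  rw [smul_coord] at h1 h2
  have e : n = n' := by
    rcases lt_trichotomy n n' with h3 | h3 | h3
    · exact (no_two h3 h1.1 h2.2).elim
    · exact h3
    · exact (no_two h3 h2.1 h1.2).elim
  subst e
  refine ⟨rfl, ?_⟩
  by_contra hc
  have hd : dj l l' = true := by simpa using hc
  have hs : ∀ l, tsupport (UU l) ⊆ tsupport (raw l) := fun l =>
    tsupport_smul_subset_right (fun _ => nf l) (raw l)
  rcases dj_raw l l' hd ((4 : ℝ) ^ n • x) with h3 | h3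
  · exact h3 (hs l h)
  · exact h3 (hs l' h')

theorem dis_FA {i j : At} (h : ¬ near i j) : Disjoint (tsupport (FA i)) (tsupport (FA j)) := by
  rw [Set.disjoint_left]
  intro x hx hx'
  obtain ⟨l, n, h1, h2⟩ := supp_FA hx
  obtain ⟨l', n', h1', h2'⟩ := supp_FA hx'
  obtain ⟨h3, h4⟩ := pcs_meet h2 h2'
  apply h
  rcases i with m | m | m | _ <;> rcases j with m' | m' | m' | _ <;>
    simp only [Occ, near] at h1 h1' ⊢
  all_goals rcases l <;> rcases l' <;> simp only [dj, reduceCtorEq, false_and, true_and,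
    false_or, or_false] at h1 h1' h4 <;> omega

theorem ih1_y_pos : 0 < ih1 (UU .y) (UU .y) := by
  by_contra hc
  have h0 : ∀ x i j, jac (UU .y) x (i, j) = 0 := by
    intro x i j
    by_contra h
    exact hc (ih1_pos (isT_UU .y) h)
  have h1 := itri_UU .c .y .y
  have h2 : itri (UU .c) (UU .y) (UU .y) = 0 := by
    rw [itri_eq]
    refine integral_eq_zero_of_ae (Eventually.of_forall (fun x => ?_))
    refine d3_zero3 ?_
    ext ⟨i, j⟩
    exact h0 x i j
  have h3 := kky_pos
  rw [h2] at h1
  simp only [ut] at h1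
  linarith

theorem ih1_z_pos : 0 < ih1 (UU .z) (UU .z) := by
  rw [UU, ih1_smul_left, ih1_smul_right]
  exact mul_pos (nf_pos _) (mul_pos (nf_pos _) (fE_pos _).2)

theorem rr_pos (n : ℕ) : 0 < rr n := by
  have := rc_pos; have := gg_pos n
  unfold rr
  exact Real.sqrt_pos.mpr (by positivity)

/-! ### The tails of `Z` -/

/-- the tail of the coefficients of `Z` -/
noncomputable def tl (M n : ℕ) : ℝ := if n < M then 0 else rr n

theorem RD_tl (M : ℕ) : RD (tl M) := by
  intro K hK
  obtain ⟨C, hC⟩ := RD_rr K hK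
  refine ⟨C, fun n => ?_⟩
  unfold tl
  split_ifs
  · rw [abs_zero, zero_mul]
    exact le_trans (by positivity) (hC n)
  · exact hC n

theorem rem_eq (M : ℕ) : F .Z - ∑ n ∈ Finset.range M, rr n • FA (.Y n) -
    (1 / 10 ^ 4 : ℝ) • FA .O = G (tl M) (UU .y) := by
  ext1 x
  obtain ⟨n, hn⟩ := loc x
  have hF : F .Z x = (rr n * 8 ^ n) • UU .y ((4 : ℝ) ^ n • x) +
      (sg 0 (1 / 10 ^ 4) n * 8 ^ n) • UU .z ((4 : ℝ) ^ n • x) := by
    unfold F
    rw [Finset.sum_apply, sum_L]
    simp only [G_eq hn (uf_UU _), cf, Pi.zero_apply, zero_mul, zero_smul, zero_add, add_zero]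
  have hY : ∀ k, FA (.Y k) x = (sg k 1 n * 8 ^ n) • UU .y ((4 : ℝ) ^ n • x) := by
    intro k
    unfold FA
    rw [Finset.sum_apply, sum_L]
    simp only [G_eq hn (uf_UU _), cfA, Pi.zero_apply, zero_mul, zero_smul, zero_add, add_zero]
  have hO : FA .O x = (sg 0 1 n * 8 ^ n) • UU .z ((4 : ℝ) ^ n • x) := by
    unfold FA
    rw [Finset.sum_apply, sum_L]
    simp only [G_eq hn (uf_UU _), cfA, Pi.zero_apply, zero_mul, zero_smul, zero_add, add_zero]
  rw [Pi.sub_apply, Pi.sub_apply, Finset.sum_apply, G_eq hn (uf_UU _)]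
  simp only [Pi.smul_apply, hF, hY, hO, smul_smul]
  rw [← Finset.sum_smul]
  have e1 : ∑ k ∈ Finset.range M, rr k * (sg k 1 n * 8 ^ n) = (rr n - tl M n) * 8 ^ n := by
    have : ∀ k ∈ Finset.range M, rr k * (sg k 1 n * 8 ^ n) =
        if n = k then rr n * 8 ^ n else 0 := by
      intro k _
      unfold sg
      split_ifs with h
      · rw [h]; ring
      · ring
    rw [Finset.sum_congr rfl this, Finset.sum_ite_eq]
    unfold tl
    simp only [Finset.mem_range]
    split_ifs <;> ring
  have e2 : (1 / 10 ^ 4 : ℝ) * (sg 0 1 n * 8 ^ n) = sg 0 (1 / 10 ^ 4) n * 8 ^ n := by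
    unfold sg
    split_ifs <;> ring
  rw [e1, e2, add_sub_right_comm, add_sub_cancel_right, ← sub_smul]
  congr 1
  ring

theorem tail_tendsto {f : ℕ → ℝ} (hf : Summable f) :
    Tendsto (fun M : ℕ => ∑' n, if n < M then 0 else f n) atTop (𝓝 0) := by
  have h1 : ∀ M : ℕ, ∑' n, (if n < M then 0 else f n) = ∑' n, f n - ∑ n ∈ Finset.range M, f n := by
    intro M
    have a := hf.hasSum
    have b : HasSum (fun n => if n < M then f n else 0) (∑ n ∈ Finset.range M, f n) := by
      have e : ∑ n ∈ Finset.range M, f n = ∑ n ∈ Finset.range M, (if n < M then f n else 0) :=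
        Finset.sum_congr rfl (fun n hn => by rw [if_pos (Finset.mem_range.mp hn)])
      rw [e]
      exact hasSum_sum_of_ne_finset_zero (fun n hn => by
        rw [Finset.mem_range] at hn
        simp [hn])
    have c := a.sub b
    have e : (fun n => f n - if n < M then f n else 0) = fun n => if n < M then 0 else f n := by
      ext n
      split_ifs <;> ring
    rw [e] at c
    exact c.tsum_eq
  simp_rw [h1]
  have := (tendsto_const_nhds (x := ∑' n, f n)).sub hf.hasSum.tendsto_sum_nat
  simpa using this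

theorem Z_unit : Tendsto (fun M : ℕ => il2 (F .Z - ∑ n ∈ Finset.range M, rr n • FA (.Y n) -
      (1 / 10 ^ 4 : ℝ) • FA .O) (F .Z - ∑ n ∈ Finset.range M, rr n • FA (.Y n) -
      (1 / 10 ^ 4 : ℝ) • FA .O)) atTop (𝓝 0) := by
  simp_rw [rem_eq]
  have hs : Summable (fun n => rr n * rr n) := by
    have := (RD_rr.mul RD_rr).summable (M := 1) zero_le_one
    refine this.congr (fun n => ?_)
    rw [one_pow, mul_one, abs_of_nonneg (mul_self_nonneg _)]
  have h := tail_tendsto hs
  refine h.congr (fun M => ?_)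
  rw [il2_G (RD_tl M) (RD_tl M) (uf_UU _) (uf_UU _), il2_UU, if_pos rfl, mul_one]
  refine tsum_congr (fun n => ?_)
  unfold tl
  split_ifs <;> ring

theorem Z1_unit : Tendsto (fun M : ℕ => ih1 (F .Z - ∑ n ∈ Finset.range M, rr n • FA (.Y n) -
      (1 / 10 ^ 4 : ℝ) • FA .O) (F .Z - ∑ n ∈ Finset.range M, rr n • FA (.Y n) -
      (1 / 10 ^ 4 : ℝ) • FA .O)) atTop (𝓝 0) := by
  simp_rw [rem_eq]
  have hs : Summable (fun n => rr n * rr n * 16 ^ n) := by
    have := (RD_rr.mul RD_rr).summable (M := 16) (by norm_num)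
    refine this.congr (fun n => ?_)
    rw [abs_of_nonneg (mul_self_nonneg _)]
  have h := (tail_tendsto hs).mul_const (ih1 (UU .y) (UU .y))
  rw [zero_mul] at h
  refine h.congr (fun M => ?_)
  rw [ih1_G (RD_tl M) (RD_tl M) (uf_UU _) (uf_UU _)]
  congr 1
  refine tsum_congr (fun n => ?_)
  unfold tl
  split_ifs <;> ring

/-! ### Rescaling -/

theorem supp_rs {N : ℕ} {x0 : E3} {u : E3 → E3} {x : E3} (hx : x ∈ tsupport (rs N x0 u)) :
    (4 : ℝ) ^ N • (x - x0) ∈ tsupport u := by
  have hcl : IsClosed {x : E3 | (4 : ℝ) ^ N • (x - x0) ∈ tsupport u} := by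
    have hc : Continuous (fun x : E3 => (4 : ℝ) ^ N • (x - x0)) := by fun_prop
    exact (isClosed_tsupport u).preimage hc
  have hsub : tsupport (rs N x0 u) ⊆ {x : E3 | (4 : ℝ) ^ N • (x - x0) ∈ tsupport u} := by
    refine closure_minimal ?_ hcl
    intro y hy
    by_contra hc
    exact hy (by rw [rs, zero_off hc, smul_zero])
  exact hsub hx

theorem rs_rem (N : ℕ) (x0 : E3) (u w : E3 → E3) (a : ℕ → E3 → E3) (r : ℕ → ℝ) (c : ℝ) (M : ℕ) :
    rs N x0 u - ∑ n ∈ Finset.range M, r n • rs N x0 (a n) - c • rs N x0 w =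
      rs N x0 (u - ∑ n ∈ Finset.range M, r n • a n - c • w) := by
  ext1 x
  simp only [rs, Pi.sub_apply, Finset.sum_apply, Pi.smul_apply, smul_sub, Finset.smul_sum]
  congr 1
  · congr 1
    exact Finset.sum_congr rfl (fun n _ => smul_comm _ _ _)
  · exact smul_comm _ _ _

theorem isT_rem (M : ℕ) : IsT (F .Z - ∑ n ∈ Finset.range M, rr n • FA (.Y n) -
    (1 / 10 ^ 4 : ℝ) • FA .O) := by
  rw [rem_eq]
  exact isT_of (isTest_G (RD_tl M) (uf_UU _))

theorem exists_cell {Ω : Set E3} (hΩ : IsOpen Ω) {x0 : E3} (hx0 : x0 ∈ Ω) {ε δ : ℝ} (hε : 0 < ε)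
    (hδ : 0 < δ) : CellE Ω x0 ε δ := by
  obtain ⟨r, hr, hball⟩ := Metric.isOpen_iff.mp hΩ x0 hx0
  have hC := crad_F
  set k0 := k00 with hk0
  set NP := ih1 (UU .p) (UU .p) with hNP
  set NS := al * al * ih1 (UU .a) (UU .a) + 16 * (be * be) * ih1 (UU .b) (UU .b)
      + ga * ga * ih1 (UU .c) (UU .c) with hNS
  set NZ := ih1 (F .Z) (F .Z) with hNZ
  obtain ⟨h1, h2, h3, h4, h5, h6, h7, h8, h9, h10⟩ := hC
  obtain ⟨N, hN⟩ := exists_nat_gt (max (156 / δ) (max (156 / r)
    ((NP + NS + NZ + 1) / (ε * k0))))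
  have hN0 : 156 / δ < N := (le_max_left _ _).trans_lt hN
  have hN1 : 156 / r < N := ((le_max_left _ _).trans (le_max_right _ _)).trans_lt hN
  have hN3 : (NP + NS + NZ + 1) / (ε * k0) < N :=
    ((le_max_right _ _).trans (le_max_right _ _)).trans_lt hN
  have hpow : ∀ q : ℝ, 0 < q → 156 / q < N → 156 / (4 : ℝ) ^ N < q := by
    intro q hq hq1
    have h1 : (N : ℝ) < 4 ^ N := by
      exact_mod_cast Nat.lt_pow_self (by norm_num : 1 < 4)
    have h2 : (0 : ℝ) < 4 ^ N := by positivity
    rw [div_lt_iff₀ h2]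
    rw [div_lt_iff₀ hq] at hq1
    nlinarith
  have hN2 := hpow r hr hN1
  have hN5 := hpow δ hδ hN0
  have hsub : Metric.closedBall x0 (156 / 4 ^ N) ⊆ Ω :=
    (Metric.closedBall_subset_ball hN2).trans hball
  have hT : ∀ i, IsT (F i) := fun i => isT_of (h7 i)
  have hN4 : NP + NS + NZ + 1 ≤ 2 ^ N * (ε * k0) := by
    have k1 : (N : ℝ) < 2 ^ N := by
      exact_mod_cast Nat.lt_pow_self (by norm_num : 1 < 2)
    rw [div_lt_iff₀ (by positivity)] at hN3
    have k2 : (N : ℝ) * (ε * k0) ≤ 2 ^ N * (ε * k0) :=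
      mul_le_mul_of_nonneg_right k1.le (by positivity)
    linarith
  have hbig : ∀ y, 0 ≤ y → y ≤ NP + NS + NZ + 1 → 16 ^ N * y ≤ ε * (32 ^ N * k0) := by
    intro y hy0 hy
    have e : (32 : ℝ) ^ N = 16 ^ N * 2 ^ N := by rw [← mul_pow]; norm_num
    rw [e]
    calc (16 : ℝ) ^ N * y ≤ 16 ^ N * (2 ^ N * (ε * k0)) := by
          have := hy.trans hN4
          gcongr
      _ = _ := by ring
  refine ⟨fun i => rs N x0 (F i), fun i => rs N x0 (FA i), 32 ^ N * k0, 16 ^ N * NP, 16 ^ N * NS,
    16 ^ N * NZ, ww, 16 ^ N * ih1 (UU .y) (UU .y), 16 ^ N * ih1 (UU .z) (UU .z),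
    fun n => 32 ^ N * th n, rr, 1 / 10 ^ 4,
    ⟨by positivity, by positivity, by positivity, by positivity, h5, h6,
    fun i => isTest_rs (h7 i) hsub, ?_, ?_, ?_⟩, ⟨?_, ?_, ?_, ?_⟩, ?_⟩
  · intro i j
    rw [il2_rs, h8]
  · intro i j
    rw [ih1_rs (hT i) (hT j), h9]
    split_ifs
    · rcases i with m | m | _ <;> simp only [grd] <;> ring
    · ring
  · intro i j k
    rw [itri_rs (hT k), h10]
    rcases i with m | m | _ <;> rcases j with m' | m' | _ <;> rcases k with m'' | m'' | _ <;>
      simp only [tab, mul_zero]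
    · split_ifs <;> ring
    · split_ifs <;> ring
    · ring
    · ring
  · exact hbig NP h2.le (by linarith)
  · exact hbig NS h3.le (by linarith)
  · exact hbig NZ h4 (by linarith)
  · have k1 := hbig 1 zero_le_one (by linarith)
    have k2 : (1 : ℝ) ≤ 16 ^ N := one_le_pow₀ (by norm_num)
    linarith
  · refine ⟨fun n => by simp only [F_P], fun n => by simp only [F_S],
      fun i => isTest_rs (isTest_FA i) hsub, ?_, ?_, ?_, ?_, ?_, ?_, ?_, rr_pos, by norm_num, ?_,
      ?_⟩
    · intro i x hx
      have k1 := supp_ball i (supp_rs hx)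
      rw [mem_closedBall_zero_iff, norm_smul, norm_pow,
        Real.norm_of_nonneg (by norm_num : (0 : ℝ) ≤ 4)] at k1
      rw [Metric.mem_closedBall, dist_eq_norm]
      have k2 : (0 : ℝ) < 4 ^ N := by positivity
      have k3 : (0 : ℝ) < 4 ^ lev i := by positivity
      rw [le_div_iff₀ k3] at k1 ⊢
      rw [div_lt_iff₀ k2] at hN5
      have k4 : 4 ^ N * (‖x - x0‖ * 4 ^ lev i) ≤ 4 ^ N * δ := by nlinarith
      exact le_of_mul_le_mul_left k4 k2
    · intro i j
      rw [il2_rs, gram_FA]
    · intro i j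
      rw [ih1_rs (isT_FA i) (isT_FA j), gramh_FA]
      split_ifs
      · rcases i with m | m | m | _ <;> simp only [gA, nS] <;> ring
      · ring
    · intro i j k
      rw [itri_rs (isT_FA k), tri_FA]
      rcases i with m | m | m | _ <;> rcases j with m' | m' | m' | _ <;>
        rcases k with m'' | m'' | m'' | _ <;> simp only [tabA, mul_zero]
      all_goals split_ifs <;> ring
    · intro i j hij
      rw [Set.disjoint_left]
      intro x hx hx'
      exact Set.disjoint_left.mp (dis_FA hij) (supp_rs hx) (supp_rs hx')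
    · have := ih1_y_pos
      positivity
    · have := ih1_z_pos
      positivity
    · simp_rw [rs_rem, il2_rs]
      exact Z_unit
    · simp_rw [rs_rem]
      have := Z1_unit.const_mul ((16 : ℝ) ^ N)
      rw [mul_zero] at this
      refine this.congr (fun M => ?_)
      rw [ih1_rs (isT_rem M) (isT_rem M)]

end Pool.Agent.T2H10.SC
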