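import Pool.Agent.H772R2.NSR.PubR

/-!
Public definitions: the Navier-Stokes equations with linear constraints.
-/

set_option autoImplicit false

open MeasureTheory Set
open scoped InnerProductSpace ENNReal ContDiff

namespace Pool.Agent.T2H10.SC

open H772R2.NS.Pub

/-- The tensor product `v ⊗ v`. -/
noncomputable def sq (v : R3) : Mat :=
  WithLp.toLp 2 fun p : Fin 3 × Fin 3 => ⟪e p.1, v⟫_ℝ * ⟪e p.2, v⟫_ℝ

/-- Let `r n j` be vector fields, `n = 0, 1, 2, …`, `j = 1, …, 13`, and let `W` be the closed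
subspace of `V = H¹_{0,σ}(Ω)` defined by the linear constraints `∫_Ω v · r n j = 0` for all `n`,
`j`. This is the graph of the gradient on `W`: `(v, z) ∈ graphC Ω r` means that `v ∈ W` and
`z = ∇v`. -/
def graphC (Ω : Set R3) (r : ℕ → Fin 13 → R3 → R3) : Set (L2 Ω R3 × L2 Ω Mat) :=
  {p | p ∈ H1graph Ω ∧ ∀ n j, (∫ x in Ω, ⟪r n j x, p.1.fn x⟫_ℝ) = 0}

/-- `u` is a strong solution on `[0,T]`, without force, of the Navier-Stokes equations with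
viscosity `ν` and the constraints `∫_Ω u · r n j = 0`: `u(t) ∈ W`, and the equations hold in the
weak form with all test fields in `W`, that is `∂_t u = P_W (ν Δu - (u·∇)u)`. Here `G = ∇u`,
`u' = ∂_t u` and `G' = ∇∂_t u`:
* `u(t) ∈ W` with gradient `G(t)`, for every `t ∈ [0,T]`;
* `u ∈ H¹(0,T; L²)`, `∇u ∈ H¹(0,T; L²)` and `∂_t u(t) ∈ W` with gradient `G'(t)` for almost
  every `t`, so that `∂_t u ∈ L²(0,T; V)`;
* `∂_t u ∈ L^∞(0,T; L²)`;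
* for every `v ∈ W` and every `t`, `(u(t), v) - (u(0), v)` is the integral over `(0,t)` of
  `(u ⊗ u, ∇v) - ν (∇u, ∇v)`. -/
structure IsStrongC (Ω : Set R3) (r : ℕ → Fin 13 → R3 → R3) (ν T : ℝ) (u u' : ℝ → L2 Ω R3)
    (G G' : ℝ → L2 Ω Mat) : Prop where
  grad : ∀ t ∈ Icc 0 T, (u t, G t) ∈ graphC Ω r
  gradDeriv : ∀ᵐ t ∂(volume.restrict (Ioc 0 T)), (u' t, G' t) ∈ graphC Ω r
  hu : IsH1 T u u'
  hG : IsH1 T G G'
  bdd : ∃ M, ∀ᵐ t ∂(volume.restrict (Ioc 0 T)), ‖u' t‖ ≤ M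
  eqn : ∀ p ∈ graphC Ω r, ∀ t ∈ Icc 0 T,
    (∫ x in Ω, ⟪(u t).fn x, p.1.fn x⟫_ℝ) - (∫ x in Ω, ⟪(u 0).fn x, p.1.fn x⟫_ℝ)
      = ∫ s in (0 : ℝ)..t, ((∫ x in Ω, ⟪sq ((u s).fn x), p.2.fn x⟫_ℝ)
        - ν * ∫ x in Ω, ⟪(G s).fn x, p.2.fn x⟫_ℝ)

end Pool.Agent.T2H10.SC
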