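import Pool.Agent.T2H10.SC.Base
import Pool.Agent.T2H10.SC.PubDef
import Pool.Agent.T2H10.Ene
import Pool.Agent.T2H10.Pub

/-!
The blow-up theorem for the Navier-Stokes equations with constraints, in terms of the public
definitions.
-/

set_option autoImplicit false
set_option linter.unusedSectionVars false
set_option maxHeartbeats 1000000

open MeasureTheory Set Filter Topology
open scoped InnerProductSpace ENNReal ContDiff NNReal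

namespace Pool.Agent.T2H10.SC

open H772R2.NS H772R2.NS.Pub
open Pool.Agent.T2H10
open Pool.Agent.W795.TQ Pool.Agent.Y303.NF Pool.Agent.Y303.RA
open H772R2.NSR (Frame prim_cont)

variable {Ω : Set E3}

theorem pub_in1 (f g : L2V Ω) :
    (∫ x in (show Set R3 from Ω), ⟪L2.fn (Ω := Ω) (E := R3) f x, L2.fn (Ω := Ω) (E := R3) g x⟫_ℝ)
      = ⟪f, g⟫_ℝ := by
  rw [L2.inner_def]
  rfl

theorem pub_in2 (f g : L2M Ω) :
    (∫ x in (show Set R3 from Ω), ⟪L2.fn (Ω := Ω) (E := Mat) f x,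
      L2.fn (Ω := Ω) (E := Mat) g x⟫_ℝ) = ⟪f, g⟫_ℝ := by
  rw [L2.inner_def]
  rfl

theorem rhs_eq (ν : ℝ) (z m q : L2M Ω) :
    ⟪(0 : L2M Ω) - ν • z + m, q⟫_ℝ = ⟪m, q⟫_ℝ - ν * ⟪z, q⟫_ℝ := by
  rw [inner_add_left, inner_sub_left, inner_zero_left, real_inner_smul_left]
  ring

theorem sq_eq (v : E3) : (sq (v : R3) : M3) = H772R2.NS.tens v := by
  refine PiLp.ext fun p => ?_
  show ⟪(Pub.e p.1 : E3), v⟫_ℝ * ⟪(Pub.e p.2 : E3), v⟫_ℝ = v p.1 * v p.2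
  rw [inner_e, inner_e]

theorem pub_in3 (hΩ : MeasurableSet Ω) {v : L2V Ω} {z : L2M Ω} (hv : (v, z) ∈ graphW Ω)
    (g : L2M Ω) :
    (∫ x in (show Set R3 from Ω), ⟪sq (L2.fn (Ω := Ω) (E := R3) v x),
      L2.fn (Ω := Ω) (E := Mat) g x⟫_ℝ) = ⟪tensL v, g⟫_ℝ := by
  rw [L2.inner_def]
  refine integral_congr_ae (μ := (volume : Measure E3).restrict Ω) ?_
  filter_upwards [tensL_coe hΩ hv] with x hx
  have hx' : (tensL v) x = H772R2.NS.tens (v x) := hx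
  rw [hx', ← sq_eq (v x)]
  rfl

theorem ap_pub (f : E3 → E3) (p : L2V Ω) :
    (∫ x in (show Set R3 from Ω), ⟪(f : R3 → R3) x, L2.fn (Ω := Ω) (E := R3) p x⟫_ℝ)
      = ap Ω f p := rfl

section

variable {r : ℕ × Fin 13 → E3 → E3} {hr : ∀ k, MemLp (r k) 2 (volume.restrict Ω)}

theorem mem_c {v : L2V Ω} {z : L2M Ω} : (v, z) ∈ WC Ω r hr ↔
    ((v, z) : L2 (show Set R3 from Ω) R3 × L2 (show Set R3 from Ω) Mat)
      ∈ graphC (show Set R3 from Ω) (fun n j => r (n, j)) := by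
  rw [mem_WC]
  constructor
  · rintro ⟨h1, h2⟩
    exact ⟨mem_pub.mp h1, fun n j => (ap_pub _ _).trans (h2 (n, j))⟩
  · rintro ⟨h1, h2⟩
    exact ⟨mem_pub.mpr h1, fun k => (ap_pub _ _).symm.trans (h2 k.1 k.2)⟩

theorem c_of_str (hΩ : IsOpen Ω) {ν T : ℝ} {u u1 : ℝ → L2V Ω} {z z1 : ℝ → L2M Ω}
    (B : Str (WC Ω r hr) tensL ν T (fun _ => 0) u u1 z z1) :
    IsStrongC (show Set R3 from Ω) (fun n j => r (n, j)) ν T u u1 z z1 := by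
  constructor
  · intro t ht
    exact mem_c.mp (B.mem t ht)
  · filter_upwards [B.mem1] with t ht
    exact mem_c.mp ht
  · exact ⟨B.u1m, B.pu⟩
  · exact ⟨B.z1m, B.pz⟩
  · exact B.bd
  · intro p hp t ht
    have hp' : (p : L2V Ω × L2M Ω) ∈ WC Ω r hr := mem_c.mpr hp
    have h1 := B.weak p hp' t ht
    have e1 := pub_in1 (Ω := Ω) (u t) p.1
    have e2 := pub_in1 (Ω := Ω) (u 0) p.1
    have h2 : ⟪u t - u 0, p.1⟫_ℝ = ⟪u t, p.1⟫_ℝ - ⟪u 0, p.1⟫_ℝ := inner_sub_left _ _ _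
    refine (congrArg₂ (· - ·) e1 e2).trans ?_
    refine h2.symm.trans (h1.trans ?_)
    refine intervalIntegral.integral_congr ?_
    intro s hs
    rw [uIcc_of_le ht.1] at hs
    have hs' : s ∈ Icc 0 T := ⟨hs.1, hs.2.trans ht.2⟩
    have e3 := pub_in3 hΩ.measurableSet (WC_le (B.mem s hs')) p.2
    have e4 := pub_in2 (Ω := Ω) (z s) p.2
    have e5 := rhs_eq (Ω := Ω) ν (z s) (tensL (u s)) p.2
    refine e5.trans ?_
    exact (congrArg₂ (fun a b => a - ν * b) e3 e4).symm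

theorem str_of_c (hΩ : IsOpen Ω) {C : ℝ} (Fr : Frame (WC Ω r hr) (tensL (Ω := Ω)) C)
    {ν T : ℝ} (hT : 0 < T) {u u1 : ℝ → L2V Ω} {z z1 : ℝ → L2M Ω}
    (B : IsStrongC (show Set R3 from Ω) (fun n j => r (n, j)) ν T u u1 z z1) :
    Str (WC Ω r hr) tensL ν T (fun _ => 0) u u1 z z1 := by
  have mem : ∀ t ∈ Icc 0 T, (u t, z t) ∈ WC Ω r hr := fun t ht => mem_c.mpr (B.grad t ht)
  have mem1 : ∀ᵐ s ∂(volume.restrict (Ioc 0 T)), (u1 s, z1 s) ∈ WC Ω r hr := by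
    filter_upwards [B.gradDeriv] with t ht
    exact mem_c.mpr ht
  have u1m : MemLp u1 2 (volume.restrict (Ioc 0 T)) := B.hu.memLp
  have z1m : MemLp z1 2 (volume.restrict (Ioc 0 T)) := B.hG.memLp
  have pu : ∀ a b, 0 ≤ a → a ≤ b → b ≤ T → u b - u a = ∫ s in a..b, u1 s := B.hu.prim
  have pz : ∀ a b, 0 ≤ a → a ≤ b → b ≤ T → z b - z a = ∫ s in a..b, z1 s := B.hG.prim
  have hzc : ContinuousOn z (Icc 0 T) := prim_cont z1m pz
  have huc : ContinuousOn u (Icc 0 T) := prim_cont u1m pu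
  have htc : ContinuousOn (fun s => tensL (u s)) (Icc 0 T) :=
    (tensL_continuousOn hΩ.measurableSet).comp (f := fun s => (u s, z s)) (huc.prodMk hzc)
      (fun t ht => WC_le (mem t ht))
  have weak : ∀ p ∈ WC Ω r hr, ∀ t ∈ Icc 0 T, ⟪u t - u 0, p.1⟫_ℝ
      = ∫ s in (0 : ℝ)..t, ⟪(0 : L2M Ω) - ν • z s + tensL (u s), p.2⟫_ℝ := by
    intro p hp t ht
    have h1 := B.eqn p (mem_c.mp hp) t ht
    have e1 := pub_in1 (Ω := Ω) (u t) p.1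
    have e2 := pub_in1 (Ω := Ω) (u 0) p.1
    have h2 : ⟪u t - u 0, p.1⟫_ℝ = ⟪u t, p.1⟫_ℝ - ⟪u 0, p.1⟫_ℝ := inner_sub_left _ _ _
    refine h2.trans ((congrArg₂ (· - ·) e1 e2).symm.trans (h1.trans ?_))
    refine intervalIntegral.integral_congr ?_
    intro s hs
    rw [uIcc_of_le ht.1] at hs
    have hs' : s ∈ Icc 0 T := ⟨hs.1, hs.2.trans ht.2⟩
    have e3 := pub_in3 hΩ.measurableSet (WC_le (mem s hs')) p.2
    have e4 := pub_in2 (Ω := Ω) (z s) p.2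
    have e5 := rhs_eq (Ω := Ω) ν (z s) (tensL (u s)) p.2
    refine Eq.trans ?_ e5.symm
    exact congrArg₂ (fun a b => a - ν * b) e3 e4
  exact ⟨mem, mem1, B.bdd, u1m, z1m, pu, pz, weak, energy_of Fr hT mem u1m pu hzc htc weak⟩

end

/-- the theorem in terms of the public definitions -/
theorem main_pub (Ω : Set R3) (hΩ : IsOpen Ω) (hb : Bornology.IsBounded Ω) {x0 : R3}
    {ε : ℝ} (hε : 0 < ε) (hcell : CellE (Ω : Set E3) x0 (ε * epsv / 2) ε) :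
    ∃ r : ℕ → Fin 13 → R3 → R3, (∀ n j, ContDiff ℝ ∞ (r n j) ∧
        tsupport (r n j) ⊆ Metric.closedBall x0 (ε / 4 ^ n)) ∧
      ∃ φ : R3 → R3, Pub.IsTest Ω φ ∧ (∫ x in Ω, ⟪φ x, φ x⟫_ℝ) ≤ 1 ∧
      ∀ ν : ℝ, 0 < ν → ∀ c : ℝ, ε * ν ≤ c →
        ∃ (τ : ℝ) (u u' : ℝ → L2 Ω R3) (G G' : ℝ → L2 Ω Mat), 0 < τ ∧ τ ≤ ε / c ∧
          IsClass (u 0) (c • φ) ∧
          (∀ T ∈ Ioo 0 τ, IsStrongC Ω r ν T u u' G G') ∧
          (∀ t ∈ Ico 0 τ, ‖u t‖ ^ 2 / 2 + ν * (∫ s in (0 : ℝ)..t, ‖G s‖ ^ 2) = ‖u 0‖ ^ 2 / 2) ∧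
          (∀ N : ℝ, ∃ t ∈ Ioo 0 τ, N ≤ ‖G t‖) ∧
          (∀ T, τ ≤ T → ∀ (v v' : ℝ → L2 Ω R3) (D D' : ℝ → L2 Ω Mat),
            IsStrongC Ω r ν T v v' D D' → ¬ IsClass (v 0) (c • φ)) := by
  obtain ⟨r, h1, hr, φ, h2, h3, h4⟩ := blow (Ω := (Ω : Set E3)) Pool.Agent.W52.TQ.proof_loc
    Pool.Agent.W503.TQ.proof_uni hΩ hb hε hε hcell
  obtain ⟨C0, Fr0⟩ := H772R2.NSR.exists_frame (Ω := (Ω : Set E3)) hΩ hb
  have Fr : Frame (WC (Ω : Set E3) r hr) (tensL (Ω := (Ω : Set E3))) C0 :=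
    frame_sub Fr0 WC_le WC_closed
  refine ⟨fun n j => r (n, j), fun n j => ⟨(h1 (n, j)).smooth, (h1 (n, j)).supp⟩, φ,
    (isTest_iff _).mpr h2, (il2_pub h2).trans_le h3, fun ν hν c hc => ?_⟩
  obtain ⟨τ, u, u', G, G', k1, k2, k3, k4, k5, k6, k7⟩ := h4 ν hν c hc
  refine ⟨τ, u, u', G, G', k1, k2, k3, fun T hT => c_of_str hΩ (k4 T hT), k5, k6, ?_⟩
  intro T hT v v' D D' hv hv0
  exact k7 T hT v v' D D' (str_of_c hΩ Fr (k1.trans_le hT) hv) hv0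

end Pool.Agent.T2H10.SC
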