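import Pool.Agent.T2H10.Alt

/-!
From a small subspace to a large one, when the residual is annihilated by the large one.
-/

set_option autoImplicit false
set_option linter.unusedSectionVars false
set_option maxHeartbeats 1000000

open MeasureTheory Set Filter Topology
open scoped InnerProductSpace

namespace Pool.Agent.T2H10.SC

open Pool.Agent.W795.TQ Pool.Agent.Y303.NF Pool.Agent.Y303.RA
open H772R2.NSR (Frame prim_cont grad_unique)

section

variable {H K : Type} [NormedAddCommGroup H] [InnerProductSpace ℝ H] [CompleteSpace H]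
  [NormedAddCommGroup K] [InnerProductSpace ℝ K] [CompleteSpace K]
  {W W' : Submodule ℝ (H × K)} {m : H → K} {C ν T : ℝ}

/-- every element of `W'` is the sum of an element of `W` and one which is orthogonal to the
solutions in `W` and to their forces -/
def Dec (W W' : Submodule ℝ (H × K)) (m : H → K) : Prop :=
  W ≤ W' ∧ ∀ p ∈ W', ∃ p0 ∈ W, ∀ q ∈ W, ⟪q.1, p.1 - p0.1⟫_ℝ = 0 ∧ ⟪q.2, p.2 - p0.2⟫_ℝ = 0 ∧
    ⟪m q.1, p.2 - p0.2⟫_ℝ = 0

/-- the solutions in the small space are solutions in the large one -/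
theorem str_lift (hD : Dec W W' m) (hT : 0 ≤ T) {u u1 : ℝ → H} {z z1 : ℝ → K}
    (S : Str W m ν T (fun _ => 0) u u1 z z1) : Str W' m ν T (fun _ => 0) u u1 z z1 where
  mem := fun t ht => hD.1 (S.mem t ht)
  mem1 := S.mem1.mono fun t ht => hD.1 ht
  bd := S.bd
  u1m := S.u1m
  z1m := S.z1m
  pu := S.pu
  pz := S.pz
  weak := by
    intro p hp t ht
    obtain ⟨p0, hp0, h⟩ := hD.2 p hp
    have h0 : (0 : ℝ) ∈ Icc 0 T := ⟨le_rfl, hT⟩
    have e1 := (h _ (S.mem t ht)).1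
    have e2 := (h _ (S.mem 0 h0)).1
    have e3 : ⟪u t - u 0, p.1⟫_ℝ = ⟪u t - u 0, p0.1⟫_ℝ := by
      have : ⟪u t - u 0, p.1 - p0.1⟫_ℝ = 0 := by
        rw [inner_sub_left]
        show ⟪u t, p.1 - p0.1⟫_ℝ - ⟪u 0, p.1 - p0.1⟫_ℝ = 0
        have e1' : ⟪u t, p.1 - p0.1⟫_ℝ = 0 := e1
        have e2' : ⟪u 0, p.1 - p0.1⟫_ℝ = 0 := e2
        rw [e1', e2', sub_zero]
      rw [inner_sub_right] at this
      linarith
    rw [e3, S.weak p0 hp0 t ht]
    refine intervalIntegral.integral_congr fun s hs => ?_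
    rw [uIcc_of_le ht.1] at hs
    obtain ⟨k1, k2, k3⟩ := h _ (S.mem s ⟨hs.1, hs.2.trans ht.2⟩)
    have k2' : ⟪z s, p.2 - p0.2⟫_ℝ = 0 := k2
    have k3' : ⟪m (u s), p.2 - p0.2⟫_ℝ = 0 := k3
    have e4 : ⟪(0 : K) - ν • z s + m (u s), p.2 - p0.2⟫_ℝ = 0 := by
      rw [inner_add_left, inner_sub_left, inner_zero_left, real_inner_smul_left, k2', k3']
      ring
    rw [inner_sub_right] at e4
    show ⟪(0 : K) - ν • z s + m (u s), p0.2⟫_ℝ = ⟪(0 : K) - ν • z s + m (u s), p.2⟫_ℝ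
    linarith
  energy := S.energy

/-- blow-up in the large space -/
theorem blow_lift (huni : S_uni) (Fr' : Frame W' m C) (hν : 0 < ν) (hD : Dec W W' m)
    {τ : ℝ} (hτ : 0 < τ) {v : ℝ → H}
    (hv : ∀ t ∈ Ioo 0 τ, Str W m ν t (fun _ => 0) v (deriv v) (gz W v) (deriv (gz W v)))
    (hN : ∀ N : ℝ, ∃ t ∈ Ioo 0 τ, N ≤ ‖gz W v t‖) :
    (∀ t ∈ Ioo 0 τ, Str W' m ν t (fun _ => 0) v (deriv v) (gz W v) (deriv (gz W v))) ∧
      ∀ t, τ ≤ t → ∀ (u u1 : ℝ → H) (z z1 : ℝ → K), Str W' m ν t (fun _ => 0) u u1 z z1 →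
        u 0 ≠ v 0 := by
  have hv' : ∀ t ∈ Ioo 0 τ,
      Str W' m ν t (fun _ => 0) v (deriv v) (gz W v) (deriv (gz W v)) :=
    fun t ht => str_lift hD ht.1.le (hv t ht)
  refine ⟨hv', fun t ht u u1 z z1 S h0 => ?_⟩
  have hzc : ContinuousOn z (Icc 0 t) := prim_cont S.z1m S.pz
  obtain ⟨B, hB⟩ := (isCompact_Icc.image_of_continuousOn hzc).isBounded.exists_norm_le
  obtain ⟨s, hs, h1⟩ := hN (B + 1)
  have hst : s ≤ t := hs.2.le.trans ht
  have h2 := str_unique huni Fr' hν (hτ.trans_le ht) hs.1 hst continuousOn_const S (hv' s hs)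
    h0.symm s ⟨hs.1.le, le_rfl⟩
  have h3 := S.mem s ⟨hs.1.le, hst⟩
  rw [h2] at h3
  have h4 : z s = gz W v s := grad_unique Fr' h3 ((hv' s hs).mem s ⟨hs.1.le, le_rfl⟩)
  have h5 := hB _ ⟨s, ⟨hs.1.le, hst⟩, rfl⟩
  rw [h4] at h5
  linarith

end

end Pool.Agent.T2H10.SC
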