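import Pool.Agent.T2H10.SC.Cons
import Pool.Agent.T2H10.SC.Lift

/-!
The decomposition of the large subspace.
-/

set_option autoImplicit false
set_option linter.unusedSectionVars false
set_option maxHeartbeats 1000000

open MeasureTheory Set Filter Topology
open scoped InnerProductSpace ENNReal ContDiff NNReal

namespace Pool.Agent.T2H10.SC

open H772R2.NS
open Pool.Agent.T2H10
open H772R2.NSR (Frame)

variable {Ω : Set E3}

/-- `p` is the pair of the classes of `φ` and `∇φ` -/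
structure Rel (Ω : Set E3) (p : L2V Ω × L2M Ω) (φ : E3 → E3) : Prop where
  test : IsTest Ω φ
  fst : p.1 =ᵐ[volume.restrict Ω] φ
  snd : p.2 =ᵐ[volume.restrict Ω] jac φ

section Rel

variable {p q : L2V Ω × L2M Ω} {φ ψ : E3 → E3}

theorem Rel.zero : Rel Ω 0 0 := ⟨IsTest.zero, Lp.coeFn_zero _ _ _, by
  refine (Lp.coeFn_zero _ _ _).trans ?_
  exact Eventually.of_forall (fun x => by simp [jac_zero])⟩

theorem Rel.add (h : Rel Ω p φ) (k : Rel Ω q ψ) : Rel Ω (p + q) (φ + ψ) := by
  refine ⟨h.test.add k.test, (Lp.coeFn_add p.1 q.1).trans (h.fst.add k.fst),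
    (Lp.coeFn_add p.2 q.2).trans ?_⟩
  filter_upwards [h.snd, k.snd] with x a b
  simp only [Pi.add_apply]
  rw [a, b, jac_add h.test.smooth k.test.smooth]

theorem Rel.smul (c : ℝ) (h : Rel Ω p φ) : Rel Ω (c • p) (c • φ) := by
  refine ⟨h.test.smul c, (Lp.coeFn_smul c p.1).trans ?_, (Lp.coeFn_smul c p.2).trans ?_⟩
  · filter_upwards [h.fst] with x a
    simp [a]
  · filter_upwards [h.snd] with x a
    simp [a, jac_smul]

theorem Rel.neg (h : Rel Ω p φ) : Rel Ω (-p) (-φ) := by
  have := h.smul (-1)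
  rwa [neg_one_smul, neg_one_smul] at this

theorem Rel.sub (h : Rel Ω p φ) (k : Rel Ω q ψ) : Rel Ω (p - q) (φ - ψ) := by
  rw [sub_eq_add_neg, sub_eq_add_neg]
  exact h.add k.neg

theorem Rel.sum {ι : Type} (s : Finset ι) {P : ι → L2V Ω × L2M Ω} {f : ι → E3 → E3}
    (h : ∀ i ∈ s, Rel Ω (P i) (f i)) : Rel Ω (∑ i ∈ s, P i) (∑ i ∈ s, f i) := by
  classical
  induction s using Finset.induction_on with
  | empty =>
    rw [Finset.sum_empty, Finset.sum_empty]
    exact Rel.zero
  | insert a s ha ih =>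
    rw [Finset.sum_insert ha, Finset.sum_insert ha]
    exact (h a (Finset.mem_insert_self a s)).add
      (ih fun i hi => h i (Finset.mem_insert_of_mem hi))

theorem Rel.norm1 (h : Rel Ω p φ) : ‖p.1‖ ^ 2 = il2 φ φ := by
  rw [← real_inner_self_eq_norm_sq]
  exact inner_il2 h.test h.fst h.fst

theorem Rel.norm2 (h : Rel Ω p φ) : ‖p.2‖ ^ 2 = ih1 φ φ := by
  rw [← real_inner_self_eq_norm_sq]
  exact inner_ih1 h.test h.snd h.snd

theorem Rel.memW (h : Rel Ω p φ) : p ∈ graphW Ω :=
  Submodule.le_topologicalClosure _ ⟨φ, h.test, h.fst, h.snd⟩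

theorem Rel.ext (h : Rel Ω p φ) (k : Rel Ω q φ) : p = q :=
  Prod.ext (Lp.ext (h.fst.trans k.fst.symm)) (Lp.ext (h.snd.trans k.snd.symm))

end Rel

theorem rel_ex {φ : E3 → E3} (h : IsTest Ω φ) : ∃ p : L2V Ω × L2M Ω, Rel Ω p φ := by
  obtain ⟨p, h1, h2⟩ := cls_ex h
  exact ⟨p, h, h1, h2⟩

/-- the classes of the linear combinations are the linear combinations of the classes -/
theorem preS_span {ι : Type} {A : ι → E3 → E3}
    {hD : ∀ φ ∈ Submodule.span ℝ (range A), IsTest Ω φ} {P : ι → L2V Ω × L2M Ω}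
    (hP : ∀ i, Rel Ω (P i) (A i)) :
    preS Ω (Submodule.span ℝ (range A)) hD ≤ Submodule.span ℝ (range P) := by
  rintro q ⟨φ, hφ, h1, h2⟩
  have key : ∀ φ ∈ Submodule.span ℝ (range A), ∀ q : L2V Ω × L2M Ω, Rel Ω q φ →
      q ∈ Submodule.span ℝ (range P) := by
    intro φ hφ
    induction hφ using Submodule.span_induction with
    | mem x hx =>
      obtain ⟨i, rfl⟩ := hx
      intro q hq
      rw [hq.ext (hP i)]
      exact Submodule.subset_span ⟨i, rfl⟩
    | zero =>
      intro q hq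
      rw [hq.ext Rel.zero]
      exact Submodule.zero_mem _
    | add x y hx hy h1 h2 =>
      intro q hq
      obtain ⟨px, kx⟩ := rel_ex (hD x hx)
      obtain ⟨py, ky⟩ := rel_ex (hD y hy)
      rw [hq.ext (kx.add ky)]
      exact Submodule.add_mem _ (h1 px kx) (h2 py ky)
    | smul a x hx h1 =>
      intro q hq
      obtain ⟨px, kx⟩ := rel_ex (hD x hx)
      rw [hq.ext (kx.smul a)]
      exact Submodule.smul_mem _ a (h1 px kx)
  exact key φ hφ q ⟨hD φ hφ, h1, h2⟩

section atoms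

variable {v : Md → E3 → E3} {A : At → E3 → E3} {x0 : E3} {ε k0 NP NS NZ w NY NO : ℝ}
  {θ ρ : ℕ → ℝ} {ρo : ℝ}

/-- the partial sums for `Z` -/
noncomputable def zp (P : At → L2V Ω × L2M Ω) (ρ : ℕ → ℝ) (ρo : ℝ) (N : ℕ) : L2V Ω × L2M Ω :=
  ∑ n ∈ Finset.range N, ρ n • P (.Y n) + ρo • P .O

theorem z_lim (C : Cell Ω x0 ε v A k0 NP NS NY NO θ ρ ρo) {P : At → L2V Ω × L2M Ω}
    (hP : ∀ i, Rel Ω (P i) (A i)) {Z : L2V Ω × L2M Ω} (hZ : Rel Ω Z (v .Z)) :
    Tendsto (zp P ρ ρo) atTop (𝓝 Z) := by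
  have hrel : ∀ N, Rel Ω (Z - zp P ρ ρo N)
      (v .Z - ∑ n ∈ Finset.range N, ρ n • A (.Y n) - ρo • A .O) := by
    intro N
    rw [sub_sub]
    exact hZ.sub ((Rel.sum _ fun i _ => (hP _).smul _).add ((hP _).smul _))
  have h1 : Tendsto (fun N => ‖(Z - zp P ρ ρo N).1‖) atTop (𝓝 0) := by
    have := C.Z
    simp only [← (hrel _).norm1] at this
    have h2 := (Real.continuous_sqrt.tendsto 0).comp this
    rw [Real.sqrt_zero] at h2
    refine h2.congr fun N => ?_
    exact Real.sqrt_sq (norm_nonneg _)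
  have h2 : Tendsto (fun N => ‖(Z - zp P ρ ρo N).2‖) atTop (𝓝 0) := by
    have := C.Z1
    simp only [← (hrel _).norm2] at this
    have h2 := (Real.continuous_sqrt.tendsto 0).comp this
    rw [Real.sqrt_zero] at h2
    refine h2.congr fun N => ?_
    exact Real.sqrt_sq (norm_nonneg _)
  have h3 : Tendsto (fun N => ‖Z - zp P ρ ρo N‖) atTop (𝓝 0) := by
    have := h1.max h2
    rw [max_self] at this
    exact this
  rw [tendsto_iff_norm_sub_tendsto_zero]
  refine h3.congr fun N => ?_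
  rw [norm_sub_rev]

theorem ap_sub_lin {f : E3 → E3} (hf : MemLp f 2 (volume.restrict Ω)) (p q : L2V Ω) :
    ap Ω f (p - q) = ap Ω f p - ap Ω f q := by
  rw [ap_eq hf, ap_eq hf, ap_eq hf, inner_sub_right]

theorem ap_zp {f : E3 → E3} (hf : MemLp f 2 (volume.restrict Ω)) (P : At → L2V Ω × L2M Ω)
    (ρ : ℕ → ℝ) (ρo : ℝ) (N : ℕ) : ap Ω f (zp P ρ ρo N).1
      = ∑ n ∈ Finset.range N, ρ n * ap Ω f (P (.Y n)).1 + ρo * ap Ω f (P .O).1 := by
  simp only [ap_eq hf]
  unfold zp
  rw [Prod.fst_add, Prod.fst_sum, inner_add_right, inner_sum]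
  simp only [Prod.smul_fst, inner_smul_right]

theorem rc_mem (C : Cell Ω x0 ε v A k0 NP NS NY NO θ ρ ρo) (hε : 0 ≤ ε) (n : ℕ) (j : Fin 13) :
    MemLp (rc A k0 NP NS NY NO θ ρ ρo n j) 2 (volume.restrict Ω) := (rc_sf C hε n j).memLp

/-- the large subspace -/
noncomputable def WM (C : Cell Ω x0 ε v A k0 NP NS NY NO θ ρ ρo) (hε : 0 ≤ ε) :
    Submodule ℝ (L2V Ω × L2M Ω) :=
  WC Ω (fun k : ℕ × Fin 13 => rc A k0 NP NS NY NO θ ρ ρo k.1 k.2) fun k => rc_mem C hε k.1 k.2

/-- the fields of the cradle satisfy the constraints -/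
theorem rc_zero (C : Cell Ω x0 ε v A k0 NP NS NY NO θ ρ ρo) (hΩ : IsOpen Ω) (hε : 0 ≤ ε)
    {P : At → L2V Ω × L2M Ω} (hP : ∀ i, Rel Ω (P i) (A i)) {i : Md} {Q : L2V Ω × L2M Ω}
    (hQ : Rel Ω Q (v i)) (n : ℕ) (j : Fin 13) :
    ap Ω (rc A k0 NP NS NY NO θ ρ ρo n j) Q.1 = 0 := by
  have hA : ∀ i, SF univ (A i) := fun i => (sf_test (C.test i)).mono (subset_univ _)
  have eA : ∀ i c, ap Ω (A i) (P c).1 = if i = c then 1 else 0 := fun i c => by
    rw [ap_il2 (C.test c) (hP c).fst, C.gram]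
  have e9 : ∀ q : L2V Ω, ap Ω (rc A k0 NP NS NY NO θ ρ ρo n 9) q
      = ρ (n + 1) * ap Ω (A (.Y n)) q - ρ n * ap Ω (A (.Y (n + 1))) q := by
    intro q
    show ap Ω ((ρ (n + 1)) • A (.Y n) + (-ρ n) • A (.Y (n + 1))) q = _
    rw [ap_add ((hA _).smul _) ((hA _).smul _), ap_smul _ (hA _), ap_smul _ (hA _)]
    ring
  have e12 : ∀ q : L2V Ω, ap Ω (rc A k0 NP NS NY NO θ ρ ρo n 12) q
      = if n = 0 then ρo * ap Ω (A (.Y 0)) q - ρ 0 * ap Ω (A .O) q else 0 := by
    intro q
    show ap Ω (if n = 0 then ρo • A (.Y 0) + (-ρ 0) • A .O else 0) q = _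
    split_ifs
    · rw [ap_add ((hA _).smul _) ((hA _).smul _), ap_smul _ (hA _), ap_smul _ (hA _)]
      ring
    · exact ap_zero q
  have hat : ∀ c, (∀ m, c ≠ .Y m) → c ≠ .O → Rel Ω Q (A c) →
      ap Ω (rc A k0 NP NS NY NO θ ρ ρo n j) Q.1 = 0 := by
    intro c hc1 hc2 hQc
    have eQ := hQc.ext (hP c)
    by_cases h9 : j = 9
    · rw [h9, e9, eQ, eA, eA, if_neg (Ne.symm (hc1 _)), if_neg (Ne.symm (hc1 _))]
      ring
    by_cases h12 : j = 12
    · rw [h12, e12, eQ, eA, eA, if_neg (Ne.symm (hc1 _)), if_neg (Ne.symm hc2)]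
      split_ifs <;> ring
    · exact rc_atom C hΩ n j h9 h12 c hQc.fst
  rcases i with m | m | _
  · exact hat (.P m) (fun _ => by simp) (by simp) (by rw [← C.P]; exact hQ)
  · exact hat (.S m) (fun _ => by simp) (by simp) (by rw [← C.S]; exact hQ)
  · have hlim := z_lim C hP hQ
    have hf := rc_mem C hε n j
    have hc : Tendsto (fun N => ap Ω (rc A k0 NP NS NY NO θ ρ ρo n j) (zp P ρ ρo N).1) atTop
        (𝓝 (ap Ω (rc A k0 NP NS NY NO θ ρ ρo n j) Q.1)) := by
      simp only [ap_eq hf]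
      exact tendsto_const_nhds.inner ((continuous_fst.tendsto Q).comp hlim)
    refine tendsto_nhds_unique hc (tendsto_const_nhds.congr' ?_)
    filter_upwards [eventually_ge_atTop (n + 2)] with N hN
    rw [ap_zp hf]
    by_cases h9 : j = 9
    · subst h9
      simp only [e9, eA, At.Y.injEq, reduceCtorEq, if_false, mul_zero, sub_zero, add_zero]
      have h1 : ∀ m ∈ Finset.range N, ρ m * (ρ (n + 1) * (if n = m then 1 else 0)
          - ρ n * (if n + 1 = m then 1 else 0))
          = (if n = m then ρ n * ρ (n + 1) else 0)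
            - (if n + 1 = m then ρ n * ρ (n + 1) else 0) := by
        intro m _
        by_cases k1 : n = m
        · subst k1
          simp
        · by_cases k2 : n + 1 = m
          · subst k2
            simp
            ring
          · simp [k1, k2]
      rw [Finset.sum_congr rfl h1, Finset.sum_sub_distrib, Finset.sum_ite_eq, Finset.sum_ite_eq,
        if_pos (Finset.mem_range.mpr (by omega)), if_pos (Finset.mem_range.mpr (by omega)),
        sub_self]
    by_cases h12 : j = 12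
    · subst h12
      simp only [e12, eA, At.Y.injEq, reduceCtorEq, if_false, if_true, mul_zero, sub_zero]
      by_cases hn : n = 0
      · subst hn
        simp only [if_true]
        have h1 : ∀ m ∈ Finset.range N, ρ m * (ρo * (if 0 = m then 1 else 0))
            = (if 0 = m then ρ 0 * ρo else 0) := by
          intro m _
          by_cases k1 : 0 = m
          · subst k1
            simp
          · simp [k1]
        rw [Finset.sum_congr rfl h1, Finset.sum_ite_eq, if_pos (Finset.mem_range.mpr (by omega))]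
        ring
      · simp [hn]
    · have h1 : ∀ c, ap Ω (rc A k0 NP NS NY NO θ ρ ρo n j) (P c).1 = 0 :=
        fun c => rc_atom C hΩ n j h9 h12 c (hP c).fst
      simp [h1]

theorem test_atoms (C : Cell Ω x0 ε v A k0 NP NS NY NO θ ρ ρo) :
    ∀ φ ∈ Submodule.span ℝ (range A), IsTest Ω φ := by
  intro φ hφ
  induction hφ using Submodule.span_induction with
  | mem x hx =>
    obtain ⟨i, rfl⟩ := hx
    exact C.test i
  | zero => exact IsTest.zero
  | add x y _ _ h1 h2 => exact h1.add h2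
  | smul a x _ h1 => exact h1.smul a

theorem clS_min {ι : Type} {B : ι → E3 → E3}
    {hD : ∀ φ ∈ Submodule.span ℝ (range B), IsTest Ω φ} {Q : ι → L2V Ω × L2M Ω}
    (hQ : ∀ i, Rel Ω (Q i) (B i)) {W : Submodule ℝ (L2V Ω × L2M Ω)}
    (hW : IsClosed (W : Set (L2V Ω × L2M Ω))) (h : ∀ i, Q i ∈ W) :
    clS Ω (Submodule.span ℝ (range B)) hD ≤ W := by
  refine Submodule.topologicalClosure_minimal _ ((preS_span hQ).trans ?_) hW
  rw [Submodule.span_le]
  rintro _ ⟨i, rfl⟩
  exact h i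

theorem cl_le_WM (C : Cell Ω x0 ε v A k0 NP NS NY NO θ ρ ρo) (Cr : Crad Ω v k0 NP NS NZ w)
    (hΩ : IsOpen Ω) (hε : 0 ≤ ε) : clS Ω (Dv v) Cr.hD ≤ WM C hε := by
  choose P hP using fun i => rel_ex (C.test i)
  choose Q hQ using fun i => rel_ex (Cr.test i)
  exact clS_min hQ WC_closed fun i => ⟨(hQ i).memW, fun k => rc_zero C hΩ hε hP (hQ i) k.1 k.2⟩

theorem cl_le_at (C : Cell Ω x0 ε v A k0 NP NS NY NO θ ρ ρo) (Cr : Crad Ω v k0 NP NS NZ w) :
    clS Ω (Dv v) Cr.hD ≤ clS Ω (Submodule.span ℝ (range A)) (test_atoms C) := by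
  choose P hP using fun i => rel_ex (C.test i)
  choose Q hQ using fun i => rel_ex (Cr.test i)
  have hPm : ∀ i, P i ∈ clS Ω (Submodule.span ℝ (range A)) (test_atoms C) := fun i =>
    preS_le_clS ⟨A i, Submodule.subset_span ⟨i, rfl⟩, (hP i).fst, (hP i).snd⟩
  refine clS_min hQ clS_closed fun i => ?_
  rcases i with m | m | _
  · have h := hQ (.P m)
    rw [C.P] at h
    rw [h.ext (hP _)]
    exact hPm _
  · have h := hQ (.S m)
    rw [C.S] at h
    rw [h.ext (hP _)]
    exact hPm _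
  · refine clS_closed.mem_of_tendsto (z_lim C hP (hQ .Z)) (Eventually.of_forall fun N => ?_)
    exact Submodule.add_mem _ (Submodule.sum_mem _ fun n _ => Submodule.smul_mem _ _ (hPm _))
      (Submodule.smul_mem _ _ (hPm _))

theorem lin_cl {ι : Type} {B : ι → E3 → E3}
    {hD : ∀ φ ∈ Submodule.span ℝ (range B), IsTest Ω φ} {Q : ι → L2V Ω × L2M Ω}
    (hQ : ∀ i, Rel Ω (Q i) (B i)) (L : (L2V Ω × L2M Ω) →L[ℝ] ℝ) (h : ∀ i, L (Q i) = 0)
    {q : L2V Ω × L2M Ω} (hq : q ∈ clS Ω (Submodule.span ℝ (range B)) hD) : L q = 0 :=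
  clS_min hQ (W := LinearMap.ker L.toLinearMap) L.isClosed_ker (fun i => h i) hq

/-- the quadratic term of a linear combination of atoms -/
theorem adv_atoms (C : Cell Ω x0 ε v A k0 NP NS NY NO θ ρ ρo)
    {p : L2V Ω} (K : Con Ω A k0 NP NS NY NO θ ρ ρo p) (h0 : ∀ i, ap Ω (A i) p = 0)
    {f : E3 → E3} (hf : f ∈ Submodule.span ℝ (range A)) : ap Ω (adv f f) p = 0 := by
  have hT : ∀ f ∈ Submodule.span ℝ (range A), IsTest Ω f := test_atoms C
  have hB : ∀ f ∈ Submodule.span ℝ (range A), ∀ g ∈ Submodule.span ℝ (range A),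
      SF univ (adv f g) := fun f hf g hg =>
    (sf_adv (hT f hf) (hT g hg)).mono (subset_univ _)
  have hAm : ∀ i, A i ∈ Submodule.span ℝ (range A) := fun i => Submodule.subset_span ⟨i, rfl⟩
  have key : ap Ω (adv f f + adv f f) p = 0 := by
    refine bil_extA (v := A) (B := fun f g => ap Ω (adv f g + adv g f) p) ?_ ?_ ?_ ?_ ?_ hf hf
    · intro f hf g hg h hh
      have e : adv (f + g) h + adv h (f + g) = (adv f h + adv h f) + (adv g h + adv h g) := by
        rw [adv_add_left, adv_add_right (hT f hf).smooth (hT g hg).smooth]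
        abel
      rw [e, ap_add ((hB f hf h hh).add (hB h hh f hf)) ((hB g hg h hh).add (hB h hh g hg))]
    · intro c f hf h hh
      have e : adv (c • f) h + adv h (c • f) = c • (adv f h + adv h f) := by
        rw [adv_smul_left, adv_smul_right, smul_add]
      rw [e, ap_smul _ ((hB f hf h hh).add (hB h hh f hf))]
    · intro f hf g hg h hh
      have e : adv h (f + g) + adv (f + g) h = (adv h f + adv f h) + (adv h g + adv g h) := by
        rw [adv_add_left, adv_add_right (hT f hf).smooth (hT g hg).smooth]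
        abel
      rw [e, ap_add ((hB h hh f hf).add (hB f hf h hh)) ((hB h hh g hg).add (hB g hg h hh))]
    · intro c f hf h hh
      have e : adv h (c • f) + adv (c • f) h = c • (adv h f + adv f h) := by
        rw [adv_smul_left, adv_smul_right, smul_add]
      rw [e, ap_smul _ ((hB h hh f hf).add (hB f hf h hh))]
    · intro i j
      have hdis : ¬ near i j → ap Ω (adv (A i) (A j) + adv (A j) (A i)) p = 0 := by
        intro h
        have h1 := C.dis i j h
        rw [adv_disj h1, adv_disj h1.symm, add_zero, ap_zero]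
      have hdbl : ∀ i, ap Ω (adv (A i) (A i)) p = 0 →
          ap Ω (adv (A i) (A i) + adv (A i) (A i)) p = 0 := by
        intro i hi
        rw [ap_add (hB _ (hAm i) _ (hAm i)) (hB _ (hAm i) _ (hAm i)), hi, add_zero]
      by_cases hn : near i j
      swap
      · exact hdis hn
      rcases i with n | n | n | _ <;> rcases j with m | m | m | _
      · have e : n = m := hn
        subst e
        exact hdbl _ (K.PP n)
      · have e : n = m ∨ n = m + 1 := hn
        rcases e with rfl | rfl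
        · show ap Ω (adv (A (.P n)) (A (.S n)) + adv (A (.S n)) (A (.P n))) p = 0
          rw [K.PS, h0]; ring
        · show ap Ω (adv (A (.P (m + 1))) (A (.S m)) + adv (A (.S m)) (A (.P (m + 1)))) p = 0
          rw [K.QS, h0]; ring
      · exact absurd hn id
      · exact absurd hn id
      · have e : m = n ∨ m = n + 1 := hn
        rcases e with rfl | rfl
        · show ap Ω (adv (A (.S m)) (A (.P m)) + adv (A (.P m)) (A (.S m))) p = 0
          rw [add_comm, K.PS, h0]; ring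
        · show ap Ω (adv (A (.S n)) (A (.P (n + 1))) + adv (A (.P (n + 1))) (A (.S n))) p = 0
          rw [add_comm, K.QS, h0]; ring
      · have e : n = m := hn
        subst e
        refine hdbl _ ?_
        rw [K.SS, h0, h0]; ring
      · have e : n = m := hn
        subst e
        show ap Ω (adv (A (.S n)) (A (.Y n)) + adv (A (.Y n)) (A (.S n))) p = 0
        rw [K.SY, h0]; ring
      · exact absurd hn id
      · exact absurd hn id
      · have e : m = n := hn
        subst e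
        show ap Ω (adv (A (.Y m)) (A (.S m)) + adv (A (.S m)) (A (.Y m))) p = 0
        rw [add_comm, K.SY, h0]; ring
      · have e : n = m := hn
        subst e
        refine hdbl _ ?_
        rw [K.YY, h0]; ring
      · exact absurd hn id
      · exact absurd hn id
      · exact absurd hn id
      · exact absurd hn id
      · exact hdbl _ K.OO
  rw [ap_add (hB f hf f hf) (hB f hf f hf)] at key
  linarith

/-- an element of the large subspace which is orthogonal to the atoms is orthogonal to everything -/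
theorem orth_all (C : Cell Ω x0 ε v A k0 NP NS NY NO θ ρ ρo) (hΩ : IsOpen Ω)
    {p : L2V Ω × L2M Ω} (hpW : p ∈ graphW Ω) (K : Con Ω A k0 NP NS NY NO θ ρ ρo p.1)
    (h0 : ∀ i, ap Ω (A i) p.1 = 0) {q : L2V Ω × L2M Ω}
    (hq : q ∈ clS Ω (Submodule.span ℝ (range A)) (test_atoms C)) :
    ⟪q.1, p.1⟫_ℝ = 0 ∧ ⟪q.2, p.2⟫_ℝ = 0 ∧ ⟪tensL q.1, p.2⟫_ℝ = 0 := by
  choose P hP using fun i => rel_ex (C.test i)
  refine ⟨?_, ?_, ?_⟩
  · have h1 := lin_cl hP ((innerSL ℝ p.1).comp (ContinuousLinearMap.fst ℝ (L2V Ω) (L2M Ω)))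
      (fun i => by
        show ⟪p.1, (P i).1⟫_ℝ = 0
        rw [real_inner_comm, ← ap_cls (hP i).fst, h0]) hq
    have h2 : ⟪p.1, q.1⟫_ℝ = 0 := h1
    rw [real_inner_comm]
    exact h2
  · have h1 := lin_cl hP ((innerSL ℝ p.2).comp (ContinuousLinearMap.snd ℝ (L2V Ω) (L2M Ω)))
      (fun i => by
        show ⟪p.2, (P i).2⟫_ℝ = 0
        have e := ap_lp hΩ (C.test i) (hP i).fst (hP i).snd hpW
        rw [K.lap, h0, mul_zero, neg_zero] at e
        rw [real_inner_comm]
        linarith) hq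
    have h2 : ⟪p.2, q.2⟫_ℝ = 0 := h1
    rw [real_inner_comm]
    exact h2
  · refine clS_induction (fun q : L2V Ω × L2M Ω => ⟪tensL q.1, p.2⟫_ℝ) (cont_tl hΩ _) ?_ hq
    rintro q ⟨φ, h1, h2, h3⟩
    show ⟪tensL q.1, p.2⟫_ℝ = 0
    have e := ap_adv hΩ (test_atoms C φ h1) h2 h3 hpW
    rw [adv_atoms C K h0 h1] at e
    linarith

/-- the projection to a closed subspace of the graph, in the norm of the gradients -/
theorem proj_grad {H K : Type} [NormedAddCommGroup H] [InnerProductSpace ℝ H] [CompleteSpace H]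
    [NormedAddCommGroup K] [InnerProductSpace ℝ K] [CompleteSpace K]
    {W : Submodule ℝ (H × K)} {m : H → K} {C : ℝ} (Fr : Frame W m C) (y : K) :
    ∃ p0 ∈ W, ∀ q ∈ W, ⟪q.2, y - p0.2⟫_ℝ = 0 := by
  set N : Submodule ℝ K := W.map (LinearMap.snd ℝ H K) with hN
  have hC0 := Fr.C0
  have : CompleteSpace W := Fr.closedW.completeSpace_coe
  set f : W →L[ℝ] K := (ContinuousLinearMap.snd ℝ H K).comp W.subtypeL with hf
  have hanti : AntilipschitzWith (Real.toNNReal (max C 1)) f := by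
    refine AddMonoidHomClass.antilipschitz_of_bound f fun p => ?_
    rw [Real.coe_toNNReal _ (by positivity)]
    have h1 := Fr.poinc p.1 p.2
    have h2 : f p = (p : H × K).2 := rfl
    rw [h2]
    show max ‖(p : H × K).1‖ ‖(p : H × K).2‖ ≤ _
    refine max_le (h1.trans ?_) ?_
    · exact mul_le_mul_of_nonneg_right (le_max_left _ _) (norm_nonneg _)
    · have := mul_le_mul_of_nonneg_right (le_max_right C 1) (norm_nonneg (p : H × K).2)
      linarith
  have hcl : IsClosed (N : Set K) := by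
    have e : (N : Set K) = range f := by
      ext y
      constructor
      · rintro ⟨p, hp, rfl⟩
        exact ⟨⟨p, hp⟩, rfl⟩
      · rintro ⟨p, rfl⟩
        exact ⟨p.1, p.2, rfl⟩
    rw [e]
    exact hanti.isClosed_range f.uniformContinuous
  have : CompleteSpace N := hcl.completeSpace_coe
  obtain ⟨p0, hp0, hp1⟩ : N.starProjection y ∈ N := Submodule.starProjection_apply_mem _ _
  refine ⟨p0, hp0, fun q hq => ?_⟩
  have h1 : p0.2 = N.starProjection y := hp1
  rw [h1]
  have h2 : q.2 ∈ N := ⟨q, hq, rfl⟩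
  exact Submodule.inner_right_of_mem_orthogonal h2 (N.sub_starProjection_mem_orthogonal y)

/-- **The decomposition.** -/
theorem dec_all (C : Cell Ω x0 ε v A k0 NP NS NY NO θ ρ ρo) (Cr : Crad Ω v k0 NP NS NZ w)
    (hΩ : IsOpen Ω) (hb : Bornology.IsBounded Ω) (hε : 0 ≤ ε) :
    Dec (clS Ω (Dv v) Cr.hD) (WM C hε) (tensL (Ω := Ω)) := by
  refine ⟨cl_le_WM C Cr hΩ hε, fun p hp => ?_⟩
  obtain ⟨C0, Fr⟩ := exists_frameS (D := Dv v) (hD := Cr.hD) hΩ hb
  obtain ⟨p0, hp0, horth⟩ := proj_grad Fr p.2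
  choose P hP using fun i => rel_ex (C.test i)
  choose Q hQ using fun i => rel_ex (Cr.test i)
  have hQm : ∀ i, Q i ∈ clS Ω (Dv v) Cr.hD := fun i =>
    preS_le_clS ⟨v i, Submodule.subset_span ⟨i, rfl⟩, (hQ i).fst, (hQ i).snd⟩
  have hp0' := cl_le_WM C Cr hΩ hε hp0
  have hr : p - p0 ∈ WM C hε := Submodule.sub_mem _ hp hp0'
  set r : L2V Ω × L2M Ω := p - p0 with hrd
  have K : Con Ω A k0 NP NS NY NO θ ρ ρo r.1 := con_of C fun n j => hr.2 (n, j)
  have hg : ∀ i, ⟪(Q i).2, r.2⟫_ℝ = 0 := fun i => horth _ (hQm i)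
  have hlap : ∀ i, ⟪(P i).2, r.2⟫_ℝ = gA NP NS NY NO i * ap Ω (A i) r.1 := by
    intro i
    have e := ap_lp hΩ (C.test i) (hP i).fst (hP i).snd hr.1
    rw [K.lap] at e
    linarith
  have hQP : ∀ n, Q (.P n) = P (.P n) := fun n => by
    have h := hQ (.P n)
    rw [C.P] at h
    exact h.ext (hP _)
  have hQS : ∀ n, Q (.S n) = P (.S n) := fun n => by
    have h := hQ (.S n)
    rw [C.S] at h
    exact h.ext (hP _)
  have haP : ∀ n, ap Ω (A (.P n)) r.1 = 0 := by
    intro n
    have h1 := hlap (.P n)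
    rw [← hQP, hg] at h1
    have h2 : (0 : ℝ) < gA NP NS NY NO (.P n) := by
      have := Cr.hNP
      simp only [gA]; positivity
    rcases mul_eq_zero.mp h1.symm with h | h
    · exact absurd h h2.ne'
    · exact h
  have haS : ∀ n, ap Ω (A (.S n)) r.1 = 0 := by
    intro n
    have h1 := hlap (.S n)
    rw [← hQS, hg] at h1
    have h2 : (0 : ℝ) < gA NP NS NY NO (.S n) := by
      have := Cr.hNS
      simp only [gA]; positivity
    rcases mul_eq_zero.mp h1.symm with h | h
    · exact absurd h h2.ne'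
    · exact h
  set lam : ℝ := ap Ω (A (.Y 0)) r.1 / ρ 0 with hlam
  have haY : ∀ n, ap Ω (A (.Y n)) r.1 = lam * ρ n := by
    intro n
    induction n with
    | zero =>
      have := C.ρ0 0
      rw [hlam]; field_simp
    | succ n ih =>
      have h1 := K.R n
      have h2 := C.ρ0 n
      rw [ih] at h1
      have h3 : ρ n * ap Ω (A (.Y (n + 1))) r.1 = ρ n * (lam * ρ (n + 1)) := by
        rw [← h1]; ring
      exact mul_left_cancel₀ h2.ne' h3
  have haO : ap Ω (A .O) r.1 = lam * ρo := by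
    have h1 := K.R0
    have h2 := C.ρ0 0
    rw [haY 0] at h1
    have h3 : ρ 0 * ap Ω (A .O) r.1 = ρ 0 * (lam * ρo) := by
      rw [← h1]; ring
    exact mul_left_cancel₀ h2.ne' h3
  have hlam0 : lam = 0 := by
    have hlim : Tendsto (fun N => ⟪(zp P ρ ρo N).2, r.2⟫_ℝ) atTop (𝓝 ⟪(Q .Z).2, r.2⟫_ℝ) :=
      ((continuous_snd.tendsto _).comp (z_lim C hP (hQ .Z))).inner tendsto_const_nhds
    rw [hg] at hlim
    have hval : ∀ N, ⟪(zp P ρ ρo N).2, r.2⟫_ℝ
        = lam * (∑ n ∈ Finset.range N, ρ n ^ 2 * (NY * 16 ^ n) + ρo ^ 2 * NO) := by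
      intro N
      unfold zp
      rw [Prod.snd_add, Prod.snd_sum, inner_add_left, sum_inner]
      simp only [Prod.smul_snd, real_inner_smul_left, hlap, haY, haO, gA]
      rw [mul_add, Finset.mul_sum]
      refine congrArg₂ (· + ·) (Finset.sum_congr rfl fun n _ => ?_) ?_ <;> ring
    have hlow : ∀ N, |lam| * (ρo ^ 2 * NO) ≤ |⟪(zp P ρ ρo N).2, r.2⟫_ℝ| := by
      intro N
      rw [hval, abs_mul]
      refine mul_le_mul_of_nonneg_left ?_ (abs_nonneg _)
      have h1 : 0 ≤ ∑ n ∈ Finset.range N, ρ n ^ 2 * (NY * 16 ^ n) := by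
        have := C.NY0
        exact Finset.sum_nonneg fun n _ => by positivity
      exact (le_add_of_nonneg_left h1).trans (le_abs_self _)
    have h1 : |lam| * (ρo ^ 2 * NO) ≤ 0 := by
      have h2 := hlim.abs
      rw [abs_zero] at h2
      exact ge_of_tendsto' h2 hlow
    have h3 : 0 < ρo ^ 2 * NO := by
      have := C.ρo0
      have := C.NO0
      positivity
    have h4 : |lam| ≤ 0 := by
      by_contra hcon
      have := mul_pos (not_le.mp hcon) h3
      linarith
    exact abs_nonpos_iff.mp h4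
  have h0 : ∀ i, ap Ω (A i) r.1 = 0 := by
    intro i
    rcases i with n | n | n | _
    · exact haP n
    · exact haS n
    · rw [haY, hlam0, zero_mul]
    · rw [haO, hlam0, zero_mul]
  refine ⟨p0, hp0, fun q hq => ?_⟩
  exact orth_all C hΩ hr.1 K h0 (cl_le_at C Cr hq)

end atoms

end Pool.Agent.T2H10.SC
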