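import Pool.Agent.T2H10.Main
import Pool.Agent.T2H10.SC.Dec

/-!
Blow-up in the large subspace.
-/

set_option autoImplicit false
set_option linter.unusedSectionVars false
set_option maxHeartbeats 1000000

open MeasureTheory Set Filter Topology
open scoped InnerProductSpace ENNReal ContDiff NNReal

namespace Pool.Agent.T2H10.SC

open H772R2.NS
open Pool.Agent.T2H10
open Pool.Agent.W795.TQ Pool.Agent.Y303.NF Pool.Agent.Y303.RA
open H772R2.NSR (Frame prim_cont)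

variable {Ω : Set E3}

/-- blow-up in the subspace spanned by the fields of a cradle -/
theorem base (hloc : S_loc) (huni : S_uni) (hΩ : IsOpen Ω) (hb : Bornology.IsBounded Ω)
    {ε : ℝ} (hε : 0 < ε) {v : Md → E3 → E3} {k0 NP NS NZ w0 : ℝ} (C : Crad Ω v k0 NP NS NZ w0)
    (q1 : NP ≤ ε * epsv / 2 * k0) (q2 : NS ≤ ε * epsv / 2 * k0) (q3 : NZ ≤ ε * epsv / 2 * k0)
    (q4 : 1 ≤ ε * epsv / 2 * k0) :
    ∃ φ ∈ Dv v, il2 φ φ ≤ 1 ∧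
      ∀ ν : ℝ, 0 < ν → ∀ c : ℝ, ε * ν ≤ c →
        ∃ (τ : ℝ) (u : ℝ → L2V Ω), 0 < τ ∧ τ ≤ ε / c ∧ (u 0 =ᵐ[volume.restrict Ω] c • φ) ∧
          (∀ t ∈ Ioo 0 τ, Str (clS Ω (Dv v) C.hD) tensL ν t (fun _ => 0) u (deriv u)
            (gz (clS Ω (Dv v) C.hD) u) (deriv (gz (clS Ω (Dv v) C.hD) u))) ∧
          (∀ N : ℝ, ∃ t ∈ Ioo 0 τ, N ≤ ‖gz (clS Ω (Dv v) C.hD) u t‖) := by
  obtain ⟨V, J, K⟩ := exists_cls C
  have hw0 := C.w0
  have h1 := C.hk0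
  have h2 := C.hNP
  have h3 := C.hNS
  have h4 := C.hNZ
  have hD := C.hD
  obtain ⟨C0, Fr⟩ := exists_frameS (D := Dv v) (hD := hD) hΩ hb
  have hTT := TT_pos
  refine ⟨(1 / 2 : ℝ) • ini v, Submodule.smul_mem _ _ (ini_mem v), ?_, ?_⟩
  · rw [il2_smul, il2_comm, il2_smul, ini_sq C, bet0_sq]
    have e1 := gg0_small
    have e2 := C.hw2
    linarith
  intro ν hν c hc
  have hc0 : 0 < c := lt_of_lt_of_le (by positivity) hc
  set A : ℝ := c / 2 with hA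
  have hA0 : 0 < A := by positivity
  have hνA : ε * ν ≤ 2 * A := by rw [hA]; linarith
  -- the viscosity is weak
  have hgen : ∀ {y : ℝ}, 0 ≤ y → y ≤ ε * epsv / 2 * k0 → ν * y / (k0 * A) ≤ epsv := by
    intro y hy0 hy
    have heps : (0 : ℝ) < epsv := by unfold epsv; norm_num
    rw [div_le_iff₀ (by positivity)]
    calc ν * y ≤ ν * (ε * epsv / 2 * k0) := mul_le_mul_of_nonneg_left hy hν.le
      _ = (ε * ν) * (epsv / 2 * k0) := by ring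
      _ ≤ 2 * A * (epsv / 2 * k0) := mul_le_mul_of_nonneg_right hνA (by positivity)
      _ = _ := by ring
  have hA1 : ν * NP / (k0 * A) ≤ epsv := hgen h2.le q1
  have hA2 : ν * NS / (k0 * A) ≤ epsv := hgen h3.le q2
  have hA3 : ν * NZ / (w0 * (k0 * A)) ≤ 1 / 10 ^ 6 := by
    have := hgen h4 q3
    have e : ν * NZ / (w0 * (k0 * A)) = ν * NZ / (k0 * A) / w0 := by field_simp
    rw [e, div_le_iff₀ hw0]
    refine this.trans ?_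
    have := C.hw1
    unfold epsv
    calc (1 : ℝ) / 10 ^ 26 ≤ 1 / 10 ^ 6 * (1 / 10 ^ 9) := by norm_num
      _ ≤ _ := mul_le_mul_of_nonneg_left this (by norm_num)
  set T : ℝ := TT / (k0 * A) with hT
  have hT0 : 0 < T := by positivity
  have hTC : T ≤ ε / c := by
    have e : ε / c = ε / 2 / A := by rw [hA]; field_simp
    rw [hT, e, div_le_div_iff₀ (by positivity) hA0]
    have e1 : TT ≤ ε / 2 * k0 := by
      have e2 : TT * 1 ≤ TT * (ε * epsv / 2 * k0) := mul_le_mul_of_nonneg_left q4 hTT.le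
      rw [TT_eq] at e2 ⊢
      unfold epsv at e2
      have : 0 ≤ ε * k0 := by positivity
      nlinarith
    calc TT * A ≤ ε / 2 * k0 * A := mul_le_mul_of_nonneg_right e1 hA0.le
      _ = _ := by ring
  have hcA : c • ((1 / 2 : ℝ) • ini v) = A • ini v := by
    rw [smul_smul]
    congr 1
    rw [hA]
    ring
  rw [hcA]
  have hφ : A • ini v ∈ Dv v := Submodule.smul_mem _ _ (ini_mem v)
  obtain ⟨p, hp, hp1, hp2⟩ := exists_pairS (hD := hD) hφ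
  obtain ⟨g0, hg0⟩ := compat_test hΩ ν (hD _ hφ) hp1 hp2
  have hno : ∀ (u u1 : ℝ → L2V Ω) (z z1 : ℝ → L2M Ω),
      Str (clS Ω (Dv v) hD) tensL ν T (fun _ => 0) u u1 z z1 → u 0 ≠ p.1 := by
    intro u u1 z z1 S hu
    exact no_strong K C hΩ hν hA0 hA1 hA2 hA3 S (by rw [hu]; exact hp1)
  obtain ⟨τ, u, k1, k2, k3, k4, k5, -⟩ := alternative hloc huni Fr (rellichS hΩ hb) hν hT0
    (preS_le_clS hp) (g0 := g0) (fun q hq => hg0 q (clS_le hq)) hno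
  refine ⟨τ, u, k1, k2.trans hTC, ?_, k4, k5⟩
  rw [k3]
  exact hp1

/-- blow-up in the large subspace -/
theorem blow (hloc : S_loc) (huni : S_uni) (hΩ : IsOpen Ω) (hb : Bornology.IsBounded Ω)
    {x0 : E3} {ε δ : ℝ} (hε : 0 < ε) (hδ : 0 < δ) (hcell : CellE Ω x0 (ε * epsv / 2) δ) :
    ∃ r : ℕ × Fin 13 → E3 → E3, (∀ k, SF (Metric.closedBall x0 (δ / 4 ^ k.1)) (r k)) ∧
      ∃ (hr : ∀ k, MemLp (r k) 2 (volume.restrict Ω)), ∃ φ : E3 → E3, IsTest Ω φ ∧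
      il2 φ φ ≤ 1 ∧ ∀ ν : ℝ, 0 < ν → ∀ c : ℝ, ε * ν ≤ c →
        ∃ (τ : ℝ) (u u' : ℝ → L2V Ω) (G G' : ℝ → L2M Ω), 0 < τ ∧ τ ≤ ε / c ∧
          (u 0 =ᵐ[volume.restrict Ω] c • φ) ∧
          (∀ T ∈ Ioo 0 τ, Str (WC Ω r hr) tensL ν T (fun _ => 0) u u' G G') ∧
          (∀ t ∈ Ico 0 τ, ‖u t‖ ^ 2 / 2 + ν * (∫ s in (0 : ℝ)..t, ‖G s‖ ^ 2) = ‖u 0‖ ^ 2 / 2) ∧
          (∀ N : ℝ, ∃ t ∈ Ioo 0 τ, N ≤ ‖G t‖) ∧
          (∀ T, τ ≤ T → ∀ (y y' : ℝ → L2V Ω) (D D' : ℝ → L2M Ω),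
            Str (WC Ω r hr) tensL ν T (fun _ => 0) y y' D D' →
            ¬ (y 0 =ᵐ[volume.restrict Ω] c • φ)) := by
  obtain ⟨v, A, k0, NP, NS, NZ, w, NY, NO, θ, ρ, ρo, Cr, ⟨q1, q2, q3, q4⟩, C⟩ := hcell
  obtain ⟨φ, hφ, hφ1, hall⟩ := base hloc huni hΩ hb hε Cr q1 q2 q3 q4
  have hDec := dec_all C Cr hΩ hb hδ.le
  obtain ⟨C0, Fr0⟩ := H772R2.NSR.exists_frame hΩ hb
  have Fr : Frame (WM C hδ.le) (tensL (Ω := Ω)) C0 := frame_sub Fr0 WC_le WC_closed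
  refine ⟨fun k => rc A k0 NP NS NY NO θ ρ ρo k.1 k.2, fun k => rc_sf C hδ.le k.1 k.2,
    fun k => rc_mem C hδ.le k.1 k.2, φ, Cr.hD φ hφ, hφ1, fun ν hν c hc => ?_⟩
  obtain ⟨τ, u, k1, k2, k3, k4, k5⟩ := hall ν hν c hc
  obtain ⟨m1, m2⟩ := blow_lift huni Fr hν hDec k1 k4 k5
  refine ⟨τ, u, _, _, _, k1, k2, k3, m1, ?_, k5, ?_⟩
  · intro t ht
    obtain ⟨r, hr1, hr2⟩ := exists_between ht.2
    have h := (k4 r ⟨ht.1.trans_lt hr1, hr2⟩).energy t ⟨ht.1, hr1.le⟩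
    have h' : ∫ s in (0 : ℝ)..t, ⟪(0 : L2M Ω), gz (clS Ω (Dv v) Cr.hD) u s⟫_ℝ = 0 := by simp
    rw [h', add_zero] at h
    exact h
  · intro T hT y y' D D' S h0
    refine m2 T hT y y' D D' S ?_
    apply Lp.ext
    exact h0.trans k3.symm

end Pool.Agent.T2H10.SC
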