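import Pool.Agent.T2H10.SC.Field
import Pool.Agent.T2H10.Geo1
import Pool.Agent.T2H10.Clo

/-!
The constraints, and the closed subspace which they define.
-/

set_option autoImplicit false
set_option linter.unusedSectionVars false
set_option maxHeartbeats 1000000

open MeasureTheory Set Filter Topology
open scoped InnerProductSpace ENNReal ContDiff NNReal

namespace Pool.Agent.T2H10.SC

open H772R2.NS
open Pool.Agent.T2H10

variable {Ω : Set E3}

section ext

variable {ι : Type} {v : ι → E3 → E3}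

theorem lin_extA {L : (E3 → E3) → ℝ}
    (ha : ∀ f ∈ Submodule.span ℝ (range v), ∀ g ∈ Submodule.span ℝ (range v),
      L (f + g) = L f + L g)
    (hs : ∀ (c : ℝ), ∀ f ∈ Submodule.span ℝ (range v), L (c • f) = c * L f)
    (h0 : ∀ i, L (v i) = 0) {f : E3 → E3} (hf : f ∈ Submodule.span ℝ (range v)) : L f = 0 := by
  induction hf using Submodule.span_induction with
  | mem x hx =>
    obtain ⟨i, rfl⟩ := hx
    exact h0 i
  | zero =>
    have := hs 0 0 (Submodule.zero_mem _)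
    rwa [zero_smul, zero_mul] at this
  | add x y hx hy h1 h2 => rw [ha x hx y hy, h1, h2, add_zero]
  | smul a x hx h1 => rw [hs a x hx, h1, mul_zero]

theorem bil_extA {B : (E3 → E3) → (E3 → E3) → ℝ}
    (ha1 : ∀ f ∈ Submodule.span ℝ (range v), ∀ g ∈ Submodule.span ℝ (range v),
      ∀ h ∈ Submodule.span ℝ (range v), B (f + g) h = B f h + B g h)
    (hs1 : ∀ (c : ℝ), ∀ f ∈ Submodule.span ℝ (range v), ∀ h ∈ Submodule.span ℝ (range v),
      B (c • f) h = c * B f h)
    (ha2 : ∀ f ∈ Submodule.span ℝ (range v), ∀ g ∈ Submodule.span ℝ (range v),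
      ∀ h ∈ Submodule.span ℝ (range v), B h (f + g) = B h f + B h g)
    (hs2 : ∀ (c : ℝ), ∀ f ∈ Submodule.span ℝ (range v), ∀ h ∈ Submodule.span ℝ (range v),
      B h (c • f) = c * B h f)
    (h0 : ∀ i j, B (v i) (v j) = 0) {f g : E3 → E3} (hf : f ∈ Submodule.span ℝ (range v))
    (hg : g ∈ Submodule.span ℝ (range v)) : B f g = 0 := by
  refine lin_extA (v := v) (L := fun f => B f g) (fun f hf f' hf' => ha1 f hf f' hf' g hg)
    (fun c f hf => hs1 c f hf g hg) (fun i => ?_) hf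
  have hi : v i ∈ Submodule.span ℝ (range v) := Submodule.subset_span ⟨i, rfl⟩
  exact lin_extA (v := v) (L := fun g => B (v i) g) (fun f hf f' hf' => ha2 f hf f' hf' _ hi)
    (fun c f hf => hs2 c f hf _ hi) (fun j => h0 i j) hg

end ext

/-! ### the functionals on classes of test fields -/

theorem ap_il2 {f φ : E3 → E3} (hφ : IsTest Ω φ) {q : L2V Ω} (hq : q =ᵐ[volume.restrict Ω] φ) :
    ap Ω f q = il2 f φ := by
  have e : ap Ω f q = ∫ x in Ω, ∑ i, f x i * φ x i := by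
    refine integral_congr_ae ?_
    filter_upwards [hq] with x a
    rw [a, inner_E3]
  rw [e]
  unfold il2
  refine setIntegral_eq_integral_of_forall_compl_eq_zero fun x hx => ?_
  rw [(off_test hφ hx).1]
  simp

theorem il2_adv (v w φ : E3 → E3) : il2 (adv v w) φ = itri φ v w := by
  unfold il2 itri
  congr 1
  funext x
  refine Finset.sum_congr rfl fun i _ => ?_
  show (∑ j, v x j * jac w x (i, j)) * φ x i = _
  rw [Finset.sum_mul]
  refine Finset.sum_congr rfl fun j _ => ?_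
  ring

theorem cls_ex {v : E3 → E3} (hv : IsTest Ω v) : ∃ p : L2V Ω × L2M Ω,
    p.1 =ᵐ[volume.restrict Ω] v ∧ p.2 =ᵐ[volume.restrict Ω] jac v := by
  have h1 : MemLp v 2 (volume.restrict Ω) := (hv.memLp 2).restrict _
  have h2 : MemLp (jac v) 2 (volume.restrict Ω) := (hv.jac_memLp 2).restrict _
  exact ⟨(h1.toLp _, h2.toLp _), h1.coeFn_toLp, h2.coeFn_toLp⟩

theorem ap_lp_cls (hΩ : IsOpen Ω) {v φ : E3 → E3} (hv : IsTest Ω v) (hφ : IsTest Ω φ)
    {q : L2V Ω} (hq : q =ᵐ[volume.restrict Ω] φ) : ap Ω (lp v) q = -ih1 v φ := by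
  obtain ⟨p, hp1, hp2⟩ := cls_ex hv
  obtain ⟨q', hq1, hq2⟩ := cls_ex hφ
  have e : q = q'.1 := Lp.ext (hq.trans hq1.symm)
  have hqW : q' ∈ graphW Ω := Submodule.le_topologicalClosure _ ⟨φ, hφ, hq1, hq2⟩
  rw [e, ap_lp hΩ hv hp1 hp2 hqW, inner_ih1 hφ hp2 hq2]

/-! ### the subspace given by constraints -/

section WC

variable {ι : Type} {r : ι → E3 → E3} {hr : ∀ j, MemLp (r j) 2 (volume.restrict Ω)}

/-- the subspace of `V` given by constraints -/
noncomputable def WC (Ω : Set E3) {ι : Type} (r : ι → E3 → E3)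
    (hr : ∀ j, MemLp (r j) 2 (volume.restrict Ω)) : Submodule ℝ (L2V Ω × L2M Ω) where
  carrier := {p | p ∈ graphW Ω ∧ ∀ j, ap Ω (r j) p.1 = 0}
  zero_mem' := ⟨Submodule.zero_mem _, fun j => by rw [ap_eq (hr j)]; exact inner_zero_right _⟩
  add_mem' := by
    rintro p q ⟨h1, h2⟩ ⟨k1, k2⟩
    refine ⟨Submodule.add_mem _ h1 k1, fun j => ?_⟩
    have e1 := h2 j
    have e2 := k2 j
    rw [ap_eq (hr j)] at e1 e2 ⊢
    show ⟪_, p.1 + q.1⟫_ℝ = 0
    rw [inner_add_right, e1, e2, add_zero]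
  smul_mem' := by
    rintro c p ⟨h1, h2⟩
    refine ⟨Submodule.smul_mem _ c h1, fun j => ?_⟩
    have e1 := h2 j
    rw [ap_eq (hr j)] at e1 ⊢
    show ⟪_, c • p.1⟫_ℝ = 0
    rw [inner_smul_right, e1, mul_zero]

theorem mem_WC {p : L2V Ω × L2M Ω} : p ∈ WC Ω r hr ↔ p ∈ graphW Ω ∧ ∀ j, ap Ω (r j) p.1 = 0 :=
  Iff.rfl

theorem WC_le : WC Ω r hr ≤ graphW Ω := fun _ h => h.1

theorem WC_closed : IsClosed (WC Ω r hr : Set (L2V Ω × L2M Ω)) := by
  have e : (WC Ω r hr : Set (L2V Ω × L2M Ω))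
      = (graphW Ω : Set (L2V Ω × L2M Ω)) ∩ ⋂ j, {p | ap Ω (r j) p.1 = 0} := by
    ext p
    simp only [SetLike.mem_coe, mem_WC, mem_inter_iff, mem_iInter, Set.mem_ofPred_eq]
  rw [e]
  refine (Submodule.isClosed_topologicalClosure _).inter (isClosed_iInter fun j => ?_)
  simp only [ap_eq (hr j)]
  exact isClosed_eq (continuous_const.inner continuous_fst) continuous_const

end WC

/-! ### the constraints of the cradle -/

section atoms

variable {v : Md → E3 → E3} {A : At → E3 → E3} {x0 : E3} {ε k0 NP NS NY NO : ℝ}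
  {θ ρ : ℕ → ℝ} {ρo : ℝ}

/-- the constraints -/
noncomputable def rc (A : At → E3 → E3) (k0 NP NS NY NO : ℝ) (θ ρ : ℕ → ℝ) (ρo : ℝ) (n : ℕ)
    (j : Fin 13) : E3 → E3 :=
  match j with
  | 0 => lp (A (.P n)) + (NP * 16 ^ n) • A (.P n)
  | 1 => lp (A (.S n)) + (NS * 16 ^ n) • A (.S n)
  | 2 => lp (A (.Y n)) + (NY * 16 ^ n) • A (.Y n)
  | 3 => adv (A (.P n)) (A (.P n))
  | 4 => adv (A (.S n)) (A (.S n)) + (-(k0 * 32 ^ n) • A (.P n) + (k0 * 32 ^ n) • A (.P (n + 1)))
  | 5 => (adv (A (.P n)) (A (.S n)) + adv (A (.S n)) (A (.P n))) + (k0 * 32 ^ n) • A (.S n)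
  | 6 => (adv (A (.P (n + 1))) (A (.S n)) + adv (A (.S n)) (A (.P (n + 1))))
      + (-(k0 * 32 ^ n)) • A (.S n)
  | 7 => adv (A (.Y n)) (A (.Y n)) + (θ n) • A (.S n)
  | 8 => (adv (A (.S n)) (A (.Y n)) + adv (A (.Y n)) (A (.S n))) + (-θ n) • A (.Y n)
  | 9 => (ρ (n + 1)) • A (.Y n) + (-ρ n) • A (.Y (n + 1))
  | 10 => if n = 0 then lp (A .O) + NO • A .O else 0
  | 11 => if n = 0 then adv (A .O) (A .O) else 0
  | 12 => if n = 0 then ρo • A (.Y 0) + (-ρ 0) • A .O else 0

/-- smooth fields with compact support, supported in a ball -/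
theorem rc_sf (C : Cell Ω x0 ε v A k0 NP NS NY NO θ ρ ρo) (hε : 0 ≤ ε) (n : ℕ) (j : Fin 13) :
    SF (Metric.closedBall x0 (ε / 4 ^ n)) (rc A k0 NP NS NY NO θ ρ ρo n j) := by
  have h1 : ∀ i, SF (tsupport (A i)) (A i) := fun i => sf_test (C.test i)
  have hle : ∀ i, n ≤ lev i → tsupport (A i) ⊆ Metric.closedBall x0 (ε / 4 ^ n) := by
    intro i hi
    refine (C.supp i).trans (Metric.closedBall_subset_closedBall ?_)
    exact div_le_div_of_nonneg_left hε (by positivity) (pow_le_pow_right₀ (by norm_num) hi)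
  have hA : ∀ i, n ≤ lev i → SF (Metric.closedBall x0 (ε / 4 ^ n)) (A i) :=
    fun i hi => (h1 i).mono (hle i hi)
  have hL : ∀ i, n ≤ lev i → SF (Metric.closedBall x0 (ε / 4 ^ n)) (lp (A i)) :=
    fun i hi => (sf_lp (C.test i)).mono (hle i hi)
  have hB : ∀ i j, n ≤ lev i → SF (Metric.closedBall x0 (ε / 4 ^ n)) (adv (A i) (A j)) :=
    fun i j hi => (sf_adv (C.test i) (C.test j)).mono (hle i hi)
  have a1 : n ≤ lev (.P n) := le_rfl
  have a2 : n ≤ lev (.S n) := le_rfl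
  have a3 : n ≤ lev (.Y n) := le_rfl
  have a4 : n ≤ lev (.P (n + 1)) := Nat.le_succ n
  have a5 : n ≤ lev (.Y (n + 1)) := Nat.le_succ n
  fin_cases j
  · exact (hL _ a1).add ((hA _ a1).smul _)
  · exact (hL _ a2).add ((hA _ a2).smul _)
  · exact (hL _ a3).add ((hA _ a3).smul _)
  · exact hB _ _ a1
  · exact (hB _ _ a2).add (((hA _ a1).smul _).add ((hA _ a4).smul _))
  · exact ((hB _ _ a1).add (hB _ _ a2)).add ((hA _ a2).smul _)
  · exact ((hB _ _ a4).add (hB _ _ a2)).add ((hA _ a2).smul _)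
  · exact (hB _ _ a3).add ((hA _ a2).smul _)
  · exact ((hB _ _ a2).add (hB _ _ a3)).add ((hA _ a3).smul _)
  · exact ((hA _ a3).smul _).add ((hA _ a5).smul _)
  · show SF _ (if n = 0 then _ else _)
    split_ifs with h
    · have a6 : n ≤ lev .O := by rw [h]; exact le_rfl
      exact (hL _ a6).add ((hA _ a6).smul _)
    · exact SF.zero
  · show SF _ (if n = 0 then _ else _)
    split_ifs with h
    · have a6 : n ≤ lev .O := by rw [h]; exact le_rfl
      exact hB _ _ a6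
    · exact SF.zero
  · show SF _ (if n = 0 then _ else _)
    split_ifs with h
    · subst h
      exact ((hA _ le_rfl).smul _).add ((hA _ le_rfl).smul _)
    · exact SF.zero

/-- the constraints in scalar form -/
structure Con (Ω : Set E3) (A : At → E3 → E3) (k0 NP NS NY NO : ℝ) (θ ρ : ℕ → ℝ) (ρo : ℝ)
    (p : L2V Ω) : Prop where
  lap : ∀ i, ap Ω (lp (A i)) p = -(gA NP NS NY NO i * ap Ω (A i) p)
  PP : ∀ n, ap Ω (adv (A (.P n)) (A (.P n))) p = 0
  SS : ∀ n, ap Ω (adv (A (.S n)) (A (.S n))) p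
    = k0 * 32 ^ n * ap Ω (A (.P n)) p - k0 * 32 ^ n * ap Ω (A (.P (n + 1))) p
  PS : ∀ n, ap Ω (adv (A (.P n)) (A (.S n)) + adv (A (.S n)) (A (.P n))) p
    = -(k0 * 32 ^ n * ap Ω (A (.S n)) p)
  QS : ∀ n, ap Ω (adv (A (.P (n + 1))) (A (.S n)) + adv (A (.S n)) (A (.P (n + 1)))) p
    = k0 * 32 ^ n * ap Ω (A (.S n)) p
  YY : ∀ n, ap Ω (adv (A (.Y n)) (A (.Y n))) p = -(θ n * ap Ω (A (.S n)) p)
  SY : ∀ n, ap Ω (adv (A (.S n)) (A (.Y n)) + adv (A (.Y n)) (A (.S n))) p
    = θ n * ap Ω (A (.Y n)) p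
  OO : ap Ω (adv (A .O) (A .O)) p = 0
  R : ∀ n, ρ (n + 1) * ap Ω (A (.Y n)) p = ρ n * ap Ω (A (.Y (n + 1))) p
  R0 : ρo * ap Ω (A (.Y 0)) p = ρ 0 * ap Ω (A .O) p

theorem con_of (C : Cell Ω x0 ε v A k0 NP NS NY NO θ ρ ρo) {p : L2V Ω}
    (h : ∀ n j, ap Ω (rc A k0 NP NS NY NO θ ρ ρo n j) p = 0) :
    Con Ω A k0 NP NS NY NO θ ρ ρo p := by
  have hA : ∀ i, SF univ (A i) := fun i => (sf_test (C.test i)).mono (subset_univ _)
  have hL : ∀ i, SF univ (lp (A i)) := fun i => (sf_lp (C.test i)).mono (subset_univ _)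
  have hB : ∀ i j, SF univ (adv (A i) (A j)) :=
    fun i j => (sf_adv (C.test i) (C.test j)).mono (subset_univ _)
  refine ⟨?_, fun n => ?_, fun n => ?_, fun n => ?_, fun n => ?_, fun n => ?_, fun n => ?_, ?_,
    fun n => ?_, ?_⟩
  · intro i
    rcases i with n | n | n | _
    · have e : ap Ω (lp (A (.P n)) + (NP * 16 ^ n) • A (.P n)) p = 0 := h n 0
      rw [ap_add (hL _) ((hA _).smul _), ap_smul _ (hA _)] at e
      simp only [gA]
      linarith
    · have e : ap Ω (lp (A (.S n)) + (NS * 16 ^ n) • A (.S n)) p = 0 := h n 1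
      rw [ap_add (hL _) ((hA _).smul _), ap_smul _ (hA _)] at e
      simp only [gA]
      linarith
    · have e : ap Ω (lp (A (.Y n)) + (NY * 16 ^ n) • A (.Y n)) p = 0 := h n 2
      rw [ap_add (hL _) ((hA _).smul _), ap_smul _ (hA _)] at e
      simp only [gA]
      linarith
    · have e : ap Ω (lp (A .O) + NO • A .O) p = 0 := h 0 10
      rw [ap_add (hL _) ((hA _).smul _), ap_smul _ (hA _)] at e
      simp only [gA]
      linarith
  · exact h n 3
  · have e : ap Ω (adv (A (.S n)) (A (.S n)) + (-(k0 * 32 ^ n) • A (.P n)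
      + (k0 * 32 ^ n) • A (.P (n + 1)))) p = 0 := h n 4
    rw [ap_add (hB _ _) (((hA _).smul _).add ((hA _).smul _)), ap_add ((hA _).smul _)
      ((hA _).smul _), ap_smul _ (hA _), ap_smul _ (hA _)] at e
    linarith
  · have e : ap Ω ((adv (A (.P n)) (A (.S n)) + adv (A (.S n)) (A (.P n)))
      + (k0 * 32 ^ n) • A (.S n)) p = 0 := h n 5
    rw [ap_add ((hB _ _).add (hB _ _)) ((hA _).smul _), ap_smul _ (hA _)] at e
    linarith
  · have e : ap Ω ((adv (A (.P (n + 1))) (A (.S n)) + adv (A (.S n)) (A (.P (n + 1))))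
      + (-(k0 * 32 ^ n)) • A (.S n)) p = 0 := h n 6
    rw [ap_add ((hB _ _).add (hB _ _)) ((hA _).smul _), ap_smul _ (hA _)] at e
    linarith
  · have e : ap Ω (adv (A (.Y n)) (A (.Y n)) + (θ n) • A (.S n)) p = 0 := h n 7
    rw [ap_add (hB _ _) ((hA _).smul _), ap_smul _ (hA _)] at e
    linarith
  · have e : ap Ω ((adv (A (.S n)) (A (.Y n)) + adv (A (.Y n)) (A (.S n)))
      + (-θ n) • A (.Y n)) p = 0 := h n 8
    rw [ap_add ((hB _ _).add (hB _ _)) ((hA _).smul _), ap_smul _ (hA _)] at e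
    linarith
  · exact h 0 11
  · have e : ap Ω ((ρ (n + 1)) • A (.Y n) + (-ρ n) • A (.Y (n + 1))) p = 0 := h n 9
    rw [ap_add ((hA _).smul _) ((hA _).smul _), ap_smul _ (hA _), ap_smul _ (hA _)] at e
    linarith
  · have e : ap Ω (ρo • A (.Y 0) + (-ρ 0) • A .O) p = 0 := h 0 12
    rw [ap_add ((hA _).smul _) ((hA _).smul _), ap_smul _ (hA _), ap_smul _ (hA _)] at e
    linarith

/-- the constraints annihilate the atoms, except for the constraints which lock the phases -/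
theorem rc_atom (C : Cell Ω x0 ε v A k0 NP NS NY NO θ ρ ρo) (hΩ : IsOpen Ω) (n : ℕ)
    (j : Fin 13) (h9 : j ≠ 9) (h12 : j ≠ 12) (c : At) {q : L2V Ω}
    (hq : q =ᵐ[volume.restrict Ω] A c) : ap Ω (rc A k0 NP NS NY NO θ ρ ρo n j) q = 0 := by
  have hA : ∀ i, SF univ (A i) := fun i => (sf_test (C.test i)).mono (subset_univ _)
  have hL : ∀ i, SF univ (lp (A i)) := fun i => (sf_lp (C.test i)).mono (subset_univ _)
  have hB : ∀ i j, SF univ (adv (A i) (A j)) :=
    fun i j => (sf_adv (C.test i) (C.test j)).mono (subset_univ _)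
  have eA : ∀ i, ap Ω (A i) q = if i = c then 1 else 0 := fun i => by
    rw [ap_il2 (C.test c) hq, C.gram]
  have eL : ∀ i, ap Ω (lp (A i)) q = -(if i = c then gA NP NS NY NO i else 0) := fun i => by
    rw [ap_lp_cls hΩ (C.test i) (C.test c) hq, C.gramh]
  have eB : ∀ i j, ap Ω (adv (A i) (A j)) q = tabA k0 θ c i j := fun i j => by
    rw [ap_il2 (C.test c) hq, il2_adv, C.tri]
  have key0 : ∀ i, ap Ω (lp (A i) + (gA NP NS NY NO i) • A i) q = 0 := by
    intro i
    rw [ap_add (hL _) ((hA _).smul _), ap_smul _ (hA _), eL, eA]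
    split_ifs <;> ring
  fin_cases j
  · exact key0 (.P n)
  · exact key0 (.S n)
  · exact key0 (.Y n)
  · refine (eB _ _).trans ?_
    rcases c with k | k | k | _ <;> simp [tabA]
  · show ap Ω (adv (A (.S n)) (A (.S n)) + (-(k0 * 32 ^ n) • A (.P n)
      + (k0 * 32 ^ n) • A (.P (n + 1)))) q = 0
    rw [ap_add (hB _ _) (((hA _).smul _).add ((hA _).smul _)), ap_add ((hA _).smul _)
      ((hA _).smul _), ap_smul _ (hA _), ap_smul _ (hA _), eA, eA, eB]
    rcases c with k | k | k | _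
    · simp only [tabA, At.P.injEq, if_true]
      by_cases h1 : k = n
      · subst h1
        simp
      · by_cases h2 : k = n + 1
        · subst h2
          simp
        · rw [if_neg h1, if_neg h2, if_neg (Ne.symm h1), if_neg (Ne.symm h2)]
          ring
    · simp [tabA]
    · simp [tabA]
    · simp [tabA]
  · show ap Ω ((adv (A (.P n)) (A (.S n)) + adv (A (.S n)) (A (.P n)))
      + (k0 * 32 ^ n) • A (.S n)) q = 0
    rw [ap_add ((hB _ _).add (hB _ _)) ((hA _).smul _), ap_smul _ (hA _), ap_add (hB _ _) (hB _ _),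
      eA, eB, eB]
    rcases c with k | k | k | _
    · simp [tabA]
    · simp only [tabA, At.S.injEq, if_true]
      by_cases h1 : k = n
      · subst h1
        simp
      · rw [if_neg h1, if_neg (Ne.symm h1)]
        ring
    · simp [tabA]
    · simp [tabA]
  · show ap Ω ((adv (A (.P (n + 1))) (A (.S n)) + adv (A (.S n)) (A (.P (n + 1))))
      + (-(k0 * 32 ^ n)) • A (.S n)) q = 0
    rw [ap_add ((hB _ _).add (hB _ _)) ((hA _).smul _), ap_smul _ (hA _), ap_add (hB _ _) (hB _ _),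
      eA, eB, eB]
    rcases c with k | k | k | _
    · simp [tabA]
    · simp only [tabA, At.S.injEq]
      by_cases h1 : k = n
      · subst h1
        simp
      · rw [if_neg h1, if_neg (Ne.symm h1)]
        ring
    · simp [tabA]
    · simp [tabA]
  · show ap Ω (adv (A (.Y n)) (A (.Y n)) + (θ n) • A (.S n)) q = 0
    rw [ap_add (hB _ _) ((hA _).smul _), ap_smul _ (hA _), eA, eB]
    rcases c with k | k | k | _
    · simp [tabA]
    · simp only [tabA, At.S.injEq, if_true]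
      by_cases h1 : k = n
      · subst h1
        simp
      · rw [if_neg h1, if_neg (Ne.symm h1)]
        ring
    · simp [tabA]
    · simp [tabA]
  · show ap Ω ((adv (A (.S n)) (A (.Y n)) + adv (A (.Y n)) (A (.S n)))
      + (-θ n) • A (.Y n)) q = 0
    rw [ap_add ((hB _ _).add (hB _ _)) ((hA _).smul _), ap_smul _ (hA _), ap_add (hB _ _) (hB _ _),
      eA, eB, eB]
    rcases c with k | k | k | _
    · simp [tabA]
    · simp [tabA]
    · simp only [tabA, At.Y.injEq]
      by_cases h1 : k = n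
      · subst h1
        simp
      · rw [if_neg h1, if_neg (Ne.symm h1)]
        ring
    · simp [tabA]
  · exact absurd rfl h9
  · show ap Ω (if n = 0 then lp (A .O) + NO • A .O else 0) q = 0
    split_ifs
    · exact key0 .O
    · exact ap_zero q
  · show ap Ω (if n = 0 then adv (A .O) (A .O) else 0) q = 0
    split_ifs
    · rw [eB]
      rcases c with k | k | k | _ <;> simp [tabA]
    · exact ap_zero q
  · exact absurd rfl h12

end atoms

end Pool.Agent.T2H10.SC
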