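import Pool.Agent.T2H10.Geom7

/-!
The atoms of a cradle: fields with small supports, whose sums are the fields `P n`, `S n`, `Z`.
-/

set_option autoImplicit false
set_option linter.unusedSectionVars false

open MeasureTheory Set Filter Topology
open scoped InnerProductSpace ENNReal ContDiff NNReal

namespace Pool.Agent.T2H10.SC

open H772R2.NS
open Pool.Agent.T2H10

/-- index set of the atoms -/
inductive At
  | P (n : ℕ)
  | S (n : ℕ)
  | Y (n : ℕ)
  | O
  deriving DecidableEq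

/-- the level -/
def lev : At → ℕ
  | .P n => n
  | .S n => n
  | .Y n => n
  | .O => 0

/-- squares of the `L²` norms of the gradients -/
noncomputable def gA (NP NS NY NO : ℝ) : At → ℝ
  | .P n => NP * 16 ^ n
  | .S n => NS * 16 ^ n
  | .Y n => NY * 16 ^ n
  | .O => NO

/-- the values of `∫ v · (w · ∇) φ` for `v, w, φ` among the atoms -/
noncomputable def tabA (k0 : ℝ) (θ : ℕ → ℝ) : At → At → At → ℝ
  | .S n, .S m, .P k =>
      if n = m then (if k = n then -(k0 * 32 ^ n) else if k = n + 1 then k0 * 32 ^ n else 0) else 0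
  | .P k, .S m, .S n =>
      if n = m then (if k = n then k0 * 32 ^ n else if k = n + 1 then -(k0 * 32 ^ n) else 0) else 0
  | .Y n, .Y m, .S k => if n = m then (if k = n then θ n else 0) else 0
  | .S k, .Y m, .Y n => if n = m then (if k = n then -θ n else 0) else 0
  | _, _, _ => 0

/-- the pairs of atoms whose supports may overlap -/
def near : At → At → Prop
  | .P n, .P m => n = m
  | .S n, .S m => n = m
  | .Y n, .Y m => n = m
  | .O, .O => True
  | .P n, .S m => n = m ∨ n = m + 1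
  | .S m, .P n => n = m ∨ n = m + 1
  | .S n, .Y m => n = m
  | .Y m, .S n => n = m
  | _, _ => False

/-- the atoms `A` of the cradle `v`, at the scales `ε 4⁻ⁿ` around `x0` -/
structure Cell (Ω : Set E3) (x0 : E3) (ε : ℝ) (v : Md → E3 → E3) (A : At → E3 → E3)
    (k0 NP NS NY NO : ℝ) (θ ρ : ℕ → ℝ) (ρo : ℝ) : Prop where
  P : ∀ n, v (.P n) = A (.P n)
  S : ∀ n, v (.S n) = A (.S n)
  test : ∀ i, IsTest Ω (A i)
  supp : ∀ i, tsupport (A i) ⊆ Metric.closedBall x0 (ε / 4 ^ lev i)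
  gram : ∀ i j, il2 (A i) (A j) = if i = j then 1 else 0
  gramh : ∀ i j, ih1 (A i) (A j) = if i = j then gA NP NS NY NO i else 0
  tri : ∀ i j k, itri (A i) (A j) (A k) = tabA k0 θ i j k
  dis : ∀ i j, ¬ near i j → Disjoint (tsupport (A i)) (tsupport (A j))
  NY0 : 0 < NY
  NO0 : 0 < NO
  ρ0 : ∀ n, 0 < ρ n
  ρo0 : 0 < ρo
  Z : Tendsto (fun N : ℕ => il2 (v .Z - ∑ n ∈ Finset.range N, ρ n • A (.Y n) - ρo • A .O)
    (v .Z - ∑ n ∈ Finset.range N, ρ n • A (.Y n) - ρo • A .O)) atTop (𝓝 0)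
  Z1 : Tendsto (fun N : ℕ => ih1 (v .Z - ∑ n ∈ Finset.range N, ρ n • A (.Y n) - ρo • A .O)
    (v .Z - ∑ n ∈ Finset.range N, ρ n • A (.Y n) - ρo • A .O)) atTop (𝓝 0)

/-- the conclusion of the geometric construction -/
def CellE (Ω : Set E3) (x0 : E3) (ε δ : ℝ) : Prop :=
  ∃ (v : Md → E3 → E3) (A : At → E3 → E3) (k0 NP NS NZ w NY NO : ℝ) (θ ρ : ℕ → ℝ) (ρo : ℝ),
    Crad Ω v k0 NP NS NZ w ∧ (NP ≤ ε * k0 ∧ NS ≤ ε * k0 ∧ NZ ≤ ε * k0 ∧ 1 ≤ ε * k0) ∧
    Cell Ω x0 δ v A k0 NP NS NY NO θ ρ ρo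

end Pool.Agent.T2H10.SC
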