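import Pool.Agent.T2H10.SC.Defs
import Pool.Agent.T2H10.Sub
import Pool.Agent.T2H10.Clo

/-!
Smooth vector fields as functionals: the Laplacian and the advection term.
-/

set_option autoImplicit false
set_option linter.unusedSectionVars false
set_option maxHeartbeats 1000000

open MeasureTheory Set Filter Topology
open scoped InnerProductSpace ENNReal ContDiff NNReal

namespace Pool.Agent.T2H10.SC

open H772R2.NS
open Pool.Agent.T2H10

variable {Ω : Set E3}

/-- smooth fields with compact support in `K` -/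
structure SF (K : Set E3) (f : E3 → E3) : Prop where
  smooth : ContDiff ℝ ∞ f
  compact : HasCompactSupport f
  supp : tsupport f ⊆ K

section SF

variable {K L : Set E3} {f g : E3 → E3}

theorem SF.mono (h : SF K f) (hK : K ⊆ L) : SF L f := ⟨h.smooth, h.compact, h.supp.trans hK⟩

theorem SF.zero : SF K (0 : E3 → E3) :=
  ⟨contDiff_const, HasCompactSupport.zero, by
    rw [tsupport_eq_empty_iff.mpr rfl]
    exact empty_subset _⟩

theorem SF.add (h : SF K f) (k : SF K g) : SF K (f + g) :=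
  ⟨h.smooth.add k.smooth, h.compact.add k.compact, (tsupport_add f g).trans
    (union_subset h.supp k.supp)⟩

theorem SF.smul (c : ℝ) (h : SF K f) : SF K (c • f) :=
  ⟨contDiff_const.smul h.smooth, h.compact.smul_left (f := fun _ => c),
    (closure_mono (Function.support_const_smul_subset c f)).trans h.supp⟩

theorem SF.neg (h : SF K f) : SF K (-f) := by
  have := h.smul (-1)
  rwa [neg_one_smul] at this

theorem SF.sub (h : SF K f) (k : SF K g) : SF K (f - g) := by
  rw [sub_eq_add_neg]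
  exact h.add k.neg

theorem SF.memLp (h : SF K f) : MemLp f 2 (volume.restrict Ω) :=
  (h.smooth.continuous.memLp_of_hasCompactSupport h.compact).restrict _

theorem sf_test (h : IsTest Ω f) : SF (tsupport f) f := ⟨h.smooth, h.compact, le_rfl⟩

end SF

/-- `(v · ∇) w` -/
noncomputable def adv (v w : E3 → E3) (x : E3) : E3 :=
  WithLp.toLp 2 fun i => ∑ j, v x j * jac w x (i, j)

/-- `Δ v` -/
noncomputable def lp (v : E3 → E3) (x : E3) : E3 :=
  WithLp.toLp 2 fun i => Pool.Agent.Y303.LV.lap v x i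

section fields

variable {v w : E3 → E3}

theorem jac_smooth (hv : ContDiff ℝ ∞ v) (i j : Fin 3) : ContDiff ℝ ∞ (fun x => jac v x (i, j)) := by
  have e : (fun x => jac v x (i, j)) = fun x => fderiv ℝ (fun y => v y i) x (ev j) := by
    funext x
    rw [fderiv_coord hv, jac_apply]
  rw [e]
  exact ((contDiff_coord hv i).fderiv_right (m := ∞) (by simp)).clm_apply contDiff_const

theorem smooth_toLp {f : Fin 3 → E3 → ℝ} (h : ∀ i, ContDiff ℝ ∞ (f i)) :
    ContDiff ℝ ∞ (fun x => (WithLp.toLp 2 fun i => f i x : E3)) :=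
  contDiff_euclidean.mpr h

theorem jac_zero_of {x : E3} (hx : x ∉ tsupport v) : jac v x = 0 :=
  image_eq_zero_of_notMem_tsupport fun h => hx (tsupport_jac_subset h)

theorem lp_zero_of {x : E3} (hx : x ∉ tsupport v) : lp v x = 0 := by
  have h3 : ∀ i j, fderiv ℝ (fun y => jac v y (i, j)) x (ev j) = 0 := by
    intro i j
    have h4 : x ∉ tsupport (fun y => jac v y (i, j)) := by
      intro h
      refine hx (tsupport_jac_subset (φ := v) ?_)
      refine closure_mono ?_ h
      intro y hy h0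
      apply hy
      simp [h0]
    have h5 : x ∉ tsupport (fderiv ℝ (fun y => jac v y (i, j))) :=
      fun h => h4 (tsupport_fderiv_subset ℝ h)
    rw [image_eq_zero_of_notMem_tsupport h5]
    rfl
  ext i
  simp [lp, Pool.Agent.Y303.LV.lap, h3]

theorem supp_of {f : E3 → E3} {K : Set E3} (hK : IsClosed K) (h : ∀ x, x ∉ K → f x = 0) :
    tsupport f ⊆ K := by
  refine closure_minimal ?_ hK
  intro x hx
  by_contra hcon
  exact hx (h x hcon)

theorem sf_lp (hv : IsTest Ω v) : SF (tsupport v) (lp v) where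
  smooth := by
    refine smooth_toLp fun i => ?_
    unfold Pool.Agent.Y303.LV.lap
    refine ContDiff.sum fun j _ => ?_
    exact ((jac_smooth hv.smooth i j).fderiv_right (m := ∞) (by simp)).clm_apply contDiff_const
  compact := HasCompactSupport.intro hv.compact fun x hx => lp_zero_of hx
  supp := supp_of (isClosed_tsupport v) fun x hx => lp_zero_of hx

theorem sf_adv (hv : IsTest Ω v) (hw : IsTest Ω w) : SF (tsupport v) (adv v w) where
  smooth := by
    refine smooth_toLp fun i => ?_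
    refine ContDiff.sum fun j _ => ?_
    exact (contDiff_coord hv.smooth j).mul (jac_smooth hw.smooth i j)
  compact := HasCompactSupport.intro hv.compact fun x hx => by
    ext i
    simp [adv, image_eq_zero_of_notMem_tsupport hx]
  supp := supp_of (isClosed_tsupport v) fun x hx => by
    ext i
    simp [adv, image_eq_zero_of_notMem_tsupport hx]

theorem adv_disj (h : Disjoint (tsupport v) (tsupport w)) : adv v w = 0 := by
  funext x
  ext i
  by_cases hx : x ∈ tsupport v
  · have hy : x ∉ tsupport w := fun h' => (Set.disjoint_left.mp h hx) h'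
    simp [adv, jac_zero_of hy]
  · simp [adv, image_eq_zero_of_notMem_tsupport hx]

theorem adv_add_left (u v w : E3 → E3) : adv (u + v) w = adv u w + adv v w := by
  funext x
  ext i
  simp only [adv, Pi.add_apply, PiLp.add_apply, add_mul, Finset.sum_add_distrib]

theorem adv_smul_left (c : ℝ) (v w : E3 → E3) : adv (c • v) w = c • adv v w := by
  funext x
  ext i
  simp only [adv, Pi.smul_apply, PiLp.smul_apply, smul_eq_mul, Finset.mul_sum, mul_assoc]

theorem adv_add_right {u : E3 → E3} (hv : ContDiff ℝ ∞ v) (hw : ContDiff ℝ ∞ w) :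
    adv u (v + w) = adv u v + adv u w := by
  funext x
  ext i
  simp only [adv, Pi.add_apply, PiLp.add_apply, jac_add hv hw, mul_add, Finset.sum_add_distrib]

theorem adv_smul_right (c : ℝ) (u v : E3 → E3) : adv u (c • v) = c • adv u v := by
  funext x
  ext i
  simp only [adv, Pi.smul_apply, PiLp.smul_apply, smul_eq_mul, jac_smul, Finset.mul_sum]
  refine Finset.sum_congr rfl fun j _ => ?_
  ring

end fields

/-- the functional given by a field -/
noncomputable def ap (Ω : Set E3) (f : E3 → E3) (p : L2V Ω) : ℝ := ∫ x in Ω, ⟪f x, p x⟫_ℝ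

theorem ap_eq {f : E3 → E3} (hf : MemLp f 2 (volume.restrict Ω)) (p : L2V Ω) :
    ap Ω f p = ⟪hf.toLp f, p⟫_ℝ := by
  rw [L2.inner_def]
  refine integral_congr_ae ?_
  filter_upwards [hf.coeFn_toLp] with x hx
  rw [hx]

theorem ap_add {K : Set E3} {f g : E3 → E3} (hf : SF K f) (hg : SF K g) (p : L2V Ω) :
    ap Ω (f + g) p = ap Ω f p + ap Ω g p := by
  have h1 : MemLp f 2 (volume.restrict Ω) := hf.memLp
  have h2 : MemLp g 2 (volume.restrict Ω) := hg.memLp
  rw [ap_eq h1, ap_eq h2, ap_eq (h1.add h2), ← inner_add_left]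
  rfl

theorem ap_smul {K : Set E3} {f : E3 → E3} (c : ℝ) (hf : SF K f) (p : L2V Ω) :
    ap Ω (c • f) p = c * ap Ω f p := by
  have h1 : MemLp f 2 (volume.restrict Ω) := hf.memLp
  rw [ap_eq h1, ap_eq (h1.const_smul c), ← real_inner_smul_left]
  rfl

theorem ap_sub {K : Set E3} {f g : E3 → E3} (hf : SF K f) (hg : SF K g) (p : L2V Ω) :
    ap Ω (f - g) p = ap Ω f p - ap Ω g p := by
  have h1 : MemLp f 2 (volume.restrict Ω) := hf.memLp
  have h2 : MemLp g 2 (volume.restrict Ω) := hg.memLp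
  rw [ap_eq h1, ap_eq h2, ap_eq (h1.sub h2), ← inner_sub_left]
  rfl

theorem ap_cls {f : E3 → E3} {V : L2V Ω} (hV : V =ᵐ[volume.restrict Ω] f) (p : L2V Ω) :
    ap Ω f p = ⟪V, p⟫_ℝ := by
  rw [L2.inner_def]
  refine integral_congr_ae ?_
  filter_upwards [hV] with x hx
  rw [hx]

theorem ap_zero (p : L2V Ω) : ap Ω 0 p = 0 := by
  simp [ap]

theorem ap_cont {K : Set E3} {f : E3 → E3} (hf : SF K f) : Continuous fun p : L2V Ω => ap Ω f p := by
  have h1 : MemLp f 2 (volume.restrict Ω) := hf.memLp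
  simp only [ap_eq h1]
  fun_prop

/-- the explicit form of the compatibility condition -/
theorem compat_fun (hΩ : IsOpen Ω) (ν : ℝ) {v : E3 → E3} (hv : IsTest Ω v) {p : L2V Ω × L2M Ω}
    (hp1 : p.1 =ᵐ[volume.restrict Ω] v) (hp2 : p.2 =ᵐ[volume.restrict Ω] jac v) :
    ∀ q ∈ graphW Ω, ⟪(0 : L2M Ω) - ν • p.2 + tensL p.1, q.2⟫_ℝ
      = ap Ω (ν • lp v - adv v v) q.1 := by
  have hm : MeasurableSet Ω := hΩ.measurableSet
  have hpW : p ∈ graphW Ω := Submodule.le_topologicalClosure _ ⟨v, hv, hp1, hp2⟩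
  have hg : SF (tsupport v) (ν • lp v - adv v v) := ((sf_lp hv).smul ν).sub (sf_adv hv hv)
  have hg2 : MemLp (ν • lp v - adv v v) 2 (volume.restrict Ω) := hg.memLp
  intro q hq
  rw [ap_eq hg2]
  revert q hq
  refine H772R2.NSR.compat_ext ?_
  rintro q ⟨ψ, k1, k2, k3⟩
  set g : E3 → E3 := ν • lp v - adv v v with hgd
  have hJ : ∀ i j, ContDiff ℝ ∞ (fun x => jac v x (i, j)) := jac_smooth hv.smooth
  have hdJ : ∀ i j, Continuous (fun x => fderiv ℝ (fun y => jac v y (i, j)) x (ev j)) :=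
    fun i j => ((hJ i j).continuous_fderiv (by simp)).clm_apply continuous_const
  have hoff : ∀ x, x ∉ Ω → ψ x = 0 ∧ jac ψ x = 0 := by
    intro x hx
    refine ⟨image_eq_zero_of_notMem_tsupport fun h => hx (k1.supp h),
      image_eq_zero_of_notMem_tsupport fun h => hx (k1.supp (tsupport_jac_subset h))⟩
  have hR : ∀ {E : Type} [NormedAddCommGroup E] [InnerProductSpace ℝ E] (f : E3 → ℝ),
      (∀ x, x ∉ Ω → f x = 0) → ∫ x in Ω, f x = ∫ x, f x := fun f hf =>
    setIntegral_eq_integral_of_forall_compl_eq_zero hf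
  have e1 : ⟪p.2, q.2⟫_ℝ = ∫ x, ⟪jac v x, jac ψ x⟫_ℝ := by
    rw [L2.inner_def, ← hR (E := E3) (fun x => ⟪jac v x, jac ψ x⟫_ℝ) (fun x hx => by
      simp only [(hoff x hx).2, inner_zero_right])]
    refine integral_congr_ae ?_
    filter_upwards [hp2, k3] with x a b
    rw [a, b]
  have e2 : ⟪tensL p.1, q.2⟫_ℝ = ∫ x, ⟪tens (v x), jac ψ x⟫_ℝ := by
    rw [L2.inner_def, ← hR (E := E3) (fun x => ⟪tens (v x), jac ψ x⟫_ℝ) (fun x hx => by
      simp only [(hoff x hx).2, inner_zero_right])]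
    refine integral_congr_ae ?_
    filter_upwards [tensL_coe hm hpW, hp1, k3] with x a b c
    rw [a, b, c]
  have e3 : ⟪hg2.toLp g, q.1⟫_ℝ = ∫ x, ⟪g x, ψ x⟫_ℝ := by
    rw [L2.inner_def, ← hR (E := E3) (fun x => ⟪g x, ψ x⟫_ℝ) (fun x hx => by
      simp only [(hoff x hx).1, inner_zero_right])]
    refine integral_congr_ae ?_
    filter_upwards [hg2.coeFn_toLp, k2] with x a b
    rw [a, b]
  have hψc : ∀ j, Continuous (fun x => ψ x j) := fun j => (contDiff_coord k1.smooth j).continuous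
  have i1 : Integrable (fun x => ∑ i, Pool.Agent.Y303.LV.lap v x i * ψ x i) := by
    refine integrable_finsetSum _ fun i _ => ?_
    refine Continuous.integrable_of_hasCompactSupport ?_
      ((hasCompactSupport_coord k1.compact i).mul_left)
    exact (continuous_finsetSum _ fun j _ => hdJ i j).mul (hψc i)
  have i2 : Integrable (fun x => ∑ i, (∑ j, v x j * jac v x (i, j)) * ψ x i) := by
    refine integrable_finsetSum _ fun i _ => ?_
    refine Continuous.integrable_of_hasCompactSupport ?_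
      ((hasCompactSupport_coord k1.compact i).mul_left)
    exact (continuous_finsetSum _ fun j _ =>
      (contDiff_coord hv.smooth j).continuous.mul (hJ i j).continuous).mul (hψc i)
  have e4 : ∀ x, ⟪g x, ψ x⟫_ℝ = ν * (∑ i, Pool.Agent.Y303.LV.lap v x i * ψ x i)
      - ∑ i, (∑ j, v x j * jac v x (i, j)) * ψ x i := by
    intro x
    rw [inner_E3, Finset.mul_sum, ← Finset.sum_sub_distrib]
    refine Finset.sum_congr rfl fun i _ => ?_
    simp only [hgd, lp, adv, Pi.sub_apply, Pi.smul_apply, PiLp.sub_apply, PiLp.smul_apply,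
      smul_eq_mul]
    ring
  have e5 : ∀ x, ⟪jac v x, Pool.Agent.W52.TQ.tns (ψ x) (v x)⟫_ℝ
      = ∑ i, (∑ j, v x j * jac v x (i, j)) * ψ x i := by
    intro x
    rw [inner_M3]
    refine Finset.sum_congr rfl fun i _ => ?_
    rw [Finset.sum_mul]
    refine Finset.sum_congr rfl fun j _ => ?_
    simp only [Pool.Agent.W52.TQ.tns]
    ring
  rw [inner_add_left, inner_sub_left, inner_zero_left, real_inner_smul_left, e1, e2, e3,
    Pool.Agent.Y303.LV.ibp_lap hv k1, Pool.Agent.W52.TQ.ibp hv k1]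
  simp only [e4, e5]
  rw [integral_sub (i1.const_mul ν) i2, integral_const_mul]
  ring

theorem ap_adv (hΩ : IsOpen Ω) {v : E3 → E3} (hv : IsTest Ω v) {p : L2V Ω × L2M Ω}
    (hp1 : p.1 =ᵐ[volume.restrict Ω] v) (hp2 : p.2 =ᵐ[volume.restrict Ω] jac v)
    {q : L2V Ω × L2M Ω} (hq : q ∈ graphW Ω) : ap Ω (adv v v) q.1 = -⟪tensL p.1, q.2⟫_ℝ := by
  have h := compat_fun hΩ 0 hv hp1 hp2 q hq
  have e : (0 : ℝ) • lp v - adv v v = (-1 : ℝ) • adv v v := by
    rw [zero_smul, zero_sub, neg_one_smul]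
  rw [e, ap_smul _ (sf_adv hv hv), zero_smul, sub_zero, zero_add] at h
  linarith

theorem ap_lp (hΩ : IsOpen Ω) {v : E3 → E3} (hv : IsTest Ω v) {p : L2V Ω × L2M Ω}
    (hp1 : p.1 =ᵐ[volume.restrict Ω] v) (hp2 : p.2 =ᵐ[volume.restrict Ω] jac v)
    {q : L2V Ω × L2M Ω} (hq : q ∈ graphW Ω) : ap Ω (lp v) q.1 = -⟪p.2, q.2⟫_ℝ := by
  have h := compat_fun hΩ 1 hv hp1 hp2 q hq
  have h2 := ap_adv hΩ hv hp1 hp2 hq
  rw [ap_sub ((sf_lp hv).smul 1) (sf_adv hv hv), ap_smul _ (sf_lp hv), inner_add_left,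
    inner_sub_left, inner_zero_left, one_smul] at h
  linarith

end Pool.Agent.T2H10.SC
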